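import Mathlib

set_option autoImplicit false

open Finset

namespace Pool.Agent.Lib.MP_242fd5_gt.Dn

lemma cut {t K : ℝ} (t0 : 0 ≤ t) (K0 : 0 < K) (p : ℕ) :
    t ^ (p + 1) ≤ K ^ p * t + K⁻¹ * t ^ (p + 2) := by
  rcases le_total t K with h | h
  · have h1 : t ^ (p + 1) ≤ K ^ p * t := by
      rw [pow_succ]; gcongr
    have : 0 ≤ K⁻¹ * t ^ (p + 2) := by positivity
    linarith
  · have h2 : t ^ (p + 1) ≤ K⁻¹ * t ^ (p + 2) := by
      rw [le_inv_mul_iff₀ K0, pow_succ' t (p + 1)]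
      exact mul_le_mul_of_nonneg_right h (by positivity)
    have : 0 ≤ K ^ p * t := by positivity
    linarith

lemma low {a b : ℕ} (ha : 1 ≤ a) (h : a ≤ b) {η : ℝ} (hη : 0 < η) :
    ∃ C : ℝ, 0 < C ∧ ∀ t : ℝ, 0 ≤ t → t ^ a ≤ η + C * t ^ b := by
  obtain ⟨κ, κ0, κ1, κη⟩ : ∃ κ : ℝ, 0 < κ ∧ κ ≤ 1 ∧ κ ≤ η :=
    ⟨min 1 η, by positivity, min_le_left _ _, min_le_right _ _⟩
  refine ⟨κ⁻¹ ^ b, by positivity, fun t t0 => ?_⟩
  rcases le_total t κ with h1 | h1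
  · have := pow_le_of_le_one t0 (h1.trans κ1) (show a ≠ 0 by omega)
    have : 0 ≤ κ⁻¹ ^ b * t ^ b := by positivity
    linarith
  · have h2 : 1 ≤ κ⁻¹ * t := by rw [le_inv_mul_iff₀ κ0]; linarith
    have h3 : t ≤ κ⁻¹ * t := le_mul_of_one_le_left t0 ((one_le_inv₀ κ0).2 κ1)
    have h4 : t ^ a ≤ (κ⁻¹ * t) ^ b :=
      (pow_le_pow_left₀ t0 h3 a).trans (pow_le_pow_right₀ h2 h)
    rw [mul_pow] at h4
    linarith

lemma sq_cut {t η : ℝ} (t0 : 0 ≤ t) (η0 : 0 < η) (p : ℕ) :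
    t ^ 2 ≤ η * t + η⁻¹ ^ p * t ^ (p + 2) := by
  rcases le_total t η with h | h
  · have : 0 ≤ η⁻¹ ^ p * t ^ (p + 2) := by positivity
    nlinarith
  · have h2 : 1 ≤ η⁻¹ * t := by rw [le_inv_mul_iff₀ η0]; linarith
    have h3 : 1 ≤ (η⁻¹ * t) ^ p := one_le_pow₀ h2
    have h4 : t ^ 2 ≤ (η⁻¹ * t) ^ p * t ^ 2 := le_mul_of_one_le_left (by positivity) h3
    rw [mul_pow, mul_assoc, ← pow_add] at h4
    have : 0 ≤ η * t := by positivity
    linarith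

lemma add_pow_two (p : ℕ) {a b : ℝ} (ha : 0 ≤ a) (hb : 0 ≤ b) :
    (a + b) ^ p ≤ 2 ^ p * (a ^ p + b ^ p) := by
  have h1 : 0 ≤ a ^ p := by positivity
  have h2 : 0 ≤ b ^ p := by positivity
  rcases le_total a b with h | h
  · calc (a + b) ^ p ≤ (2 * b) ^ p := by gcongr; linarith
      _ ≤ _ := by rw [mul_pow]; gcongr; linarith
  · calc (a + b) ^ p ≤ (2 * a) ^ p := by gcongr; linarith
      _ ≤ _ := by rw [mul_pow]; gcongr; linarith

variable {ι : Type}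

lemma one_le_prod (s : Finset ι) {x : ι → ℝ} (h : ∀ i, 0 ≤ x i) : 1 ≤ ∏ j ∈ s, (1 + x j) :=
  Finset.prod_induction _ (fun y => 1 ≤ y) (fun _ _ a b => one_le_mul_of_one_le_of_one_le a b) le_rfl
    fun i _ => by linarith [h i]

lemma dich (s : Finset ι) {x : ι → ℝ} (h : ∀ i, 0 ≤ x i) {M : ℕ} (hM : 1 ≤ M) :
    (∃ i ∈ s, ∑ j ∈ s, x j ≤ M * x i) ∨ ((∑ j ∈ s, x j) / M) ^ M ≤ ∏ j ∈ s, (1 + x j) := by
  have M0 : (0 : ℝ) < M := by exact_mod_cast hM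
  rcases (sum_nonneg fun j (_ : j ∈ s) => h j).eq_or_lt with e | e
  · right
    rw [← e, zero_div, zero_pow (by omega)]
    exact zero_le_one.trans (one_le_prod s h)
  by_cases h1 : ∃ i ∈ s, ∑ j ∈ s, x j ≤ M * x i
  · exact Or.inl h1
  right
  push Not at h1
  obtain ⟨Y, hY⟩ : ∃ Y, Y = (∑ j ∈ s, x j) / M := ⟨_, rfl⟩
  have Y0 : 0 < Y := hY ▸ div_pos e M0
  rw [← hY]
  have h2 : ∀ i ∈ s, (1 + Y) ^ (x i / Y) ≤ 1 + x i := fun i hi => by
    have h3 : x i / Y ≤ 1 := by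
      rw [div_le_one Y0, hY, le_div_iff₀ M0]; linarith [h1 i hi]
    have := rpow_one_add_le_one_add_mul_self (s := Y) (by linarith) (div_nonneg (h i) Y0.le) h3
    rwa [div_mul_cancel₀ _ Y0.ne'] at this
  calc Y ^ M ≤ (1 + Y) ^ M := by gcongr; linarith
    _ = ∏ j ∈ s, (1 + Y) ^ (x j / Y) := by
        rw [← Real.rpow_sum_of_pos (by linarith), ← sum_div, ← Real.rpow_natCast]
        congr 1
        rw [hY]; field_simp
    _ ≤ _ := prod_le_prod (fun i _ => Real.rpow_nonneg (by linarith) _) h2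

lemma sum_pow_le (s : Finset ι) {x : ι → ℝ} (h : ∀ i, 0 ≤ x i) {m : ℕ} (hm : 1 ≤ m) :
    (∑ j ∈ s, x j) ^ m ≤ (m : ℝ) ^ m * (∑ j ∈ s, x j ^ m + ∏ j ∈ s, (1 + x j)) := by
  have M0 : (0 : ℝ) < m := by exact_mod_cast hm
  have h0 : 0 ≤ ∑ j ∈ s, x j ^ m := sum_nonneg fun j _ => pow_nonneg (h j) _
  have h1 := one_le_prod s h
  rcases dich s h hm with ⟨i, hi, e⟩ | e
  · have h2 : x i ^ m ≤ ∑ j ∈ s, x j ^ m :=
      single_le_sum (f := fun j => x j ^ m) (fun j _ => pow_nonneg (h j) _) hi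
    refine (pow_le_pow_left₀ (sum_nonneg fun j _ => h j) e m).trans ?_
    rw [mul_pow]
    gcongr
    linarith
  · rw [div_pow, div_le_iff₀ (by positivity), mul_comm] at e
    refine e.trans ?_
    gcongr
    linarith

lemma rem_le (s : Finset ι) {x : ι → ℝ} (h : ∀ i, 0 ≤ x i) {r p : ℕ} (hr : 1 ≤ r) (hp : 1 ≤ p)
    {w : ℝ} (hw : 0 < w) :
    max ((∑ j ∈ s, x j) ^ r - ((r * p : ℕ) : ℝ) ^ r * ∑ j ∈ s, x j ^ r) 0 ^ p ≤
      (((r * p : ℕ) : ℝ) * w) ^ (r * p) * ∏ j ∈ s, (1 + w⁻¹ * x j) := by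
  have hM : 1 ≤ r * p := Nat.mul_pos hr hp
  have M0 : (0 : ℝ) < ((r * p : ℕ) : ℝ) := by exact_mod_cast hM
  have h' : ∀ i, 0 ≤ w⁻¹ * x i := fun i => mul_nonneg (inv_pos.2 hw).le (h i)
  have h0 : 0 ≤ ∑ j ∈ s, x j ^ r := sum_nonneg fun j _ => pow_nonneg (h j) _
  have S0 : 0 ≤ ∑ j ∈ s, x j := sum_nonneg fun j _ => h j
  have h1 := one_le_prod s h'
  rcases dich s h' hM with ⟨i, hi, e⟩ | e
  · rw [← mul_sum, mul_left_comm] at e
    have e1 := le_of_mul_le_mul_left e (inv_pos.2 hw)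
    have h2 : x i ^ r ≤ ∑ j ∈ s, x j ^ r :=
      single_le_sum (f := fun j => x j ^ r) (fun j _ => pow_nonneg (h j) _) hi
    have h3 := pow_le_pow_left₀ S0 e1 r
    rw [mul_pow] at h3
    rw [max_eq_right (by nlinarith [pow_pos M0 r]), zero_pow (by omega)]
    positivity
  · rw [← mul_sum, div_pow, div_le_iff₀ (by positivity), mul_pow, inv_pow,
      inv_mul_le_iff₀ (by positivity)] at e
    calc _ ≤ ((∑ j ∈ s, x j) ^ r) ^ p := by
          refine pow_le_pow_left₀ (le_max_right _ _) (max_le ?_ (by positivity)) _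
          nlinarith [pow_pos M0 r]
      _ ≤ _ := by rw [← pow_mul, mul_pow]; linarith

lemma cross2 (p : ℕ) {a b : ℝ} (ha : 0 ≤ a) (hb : 0 ≤ b) :
    (a + b) ^ (p + 2) ≤ a ^ (p + 2) + b ^ (p + 2) + (p + 2) * (a * b * (a + b) ^ p) := by
  induction p with
  | zero => simp; nlinarith
  | succ p ih =>
    have h1 : a ^ (p + 1) + b ^ (p + 1) ≤ (a + b) ^ (p + 1) := pow_add_pow_le ha hb (by omega)
    have h2 := mul_le_mul_of_nonneg_left ih (add_nonneg ha hb)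
    have h3 := mul_le_mul_of_nonneg_left h1 (mul_nonneg ha hb)
    push_cast
    calc (a + b) ^ (p + 1 + 2) = (a + b) * (a + b) ^ (p + 2) := by ring
      _ ≤ _ := h2
      _ = a ^ (p + 1 + 2) + b ^ (p + 1 + 2) + (p + 2) * (a * b * (a + b) ^ (p + 1)) +
          a * b * (a ^ (p + 1) + b ^ (p + 1)) := by ring
      _ ≤ _ := by linarith

lemma cross_eta (p : ℕ) {M η : ℝ} (hM : 0 ≤ M) (hη : 0 < η) : ∃ C : ℝ, 0 < C ∧ ∀ a b : ℝ, 0 ≤ a →
    a ≤ M → 0 ≤ b → (a + b) ^ (p + 2) ≤ a ^ (p + 2) + b ^ (p + 2) +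
      (η * b ^ (p + 2) + C * min b 1) := by
  obtain ⟨K, K1, KM, Kη⟩ : ∃ K : ℝ, 1 ≤ K ∧ M ≤ K ∧ (p + 2) * M * 2 ^ p ≤ η * K :=
    ⟨max (max 1 M) ((p + 2) * M * 2 ^ p / η), le_max_of_le_left (le_max_left _ _),
      le_max_of_le_left (le_max_right _ _), by
        rw [← div_le_iff₀' hη]; exact le_max_right _ _⟩
  refine ⟨(p + 2) * M * (M + K) ^ p * K + 1, by positivity, fun a b ha aM hb => ?_⟩
  refine (cross2 p ha hb).trans (add_le_add le_rfl ?_)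
  have m0 : 0 ≤ min b 1 := le_min hb zero_le_one
  rcases le_total b K with h | h
  · have h1 : b ≤ K * min b 1 := by
      rcases le_total b 1 with e | e
      · rw [min_eq_left e]; nlinarith
      · rw [min_eq_right e]; linarith
    have h2 : a * b * (a + b) ^ p ≤ M * (K * min b 1) * (M + K) ^ p := by gcongr
    have h3 : 0 ≤ η * b ^ (p + 2) := by positivity
    nlinarith [mul_le_mul_of_nonneg_left h2 (show (0 : ℝ) ≤ p + 2 by positivity)]
  · have h2 : a * b * (a + b) ^ p ≤ M * b * (2 * b) ^ p := by gcongr; linarith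
    have h3 : 0 ≤ ((p + 2) * M * (M + K) ^ p * K + 1) * min b 1 := by positivity
    have h4 : (p + 2) * M * 2 ^ p * b ^ (p + 1) ≤ η * b * b ^ (p + 1) :=
      mul_le_mul_of_nonneg_right (Kη.trans (by gcongr)) (by positivity)
    calc _ ≤ (p + 2) * (M * b * (2 * b) ^ p) := by gcongr
      _ = (p + 2) * M * 2 ^ p * b ^ (p + 1) := by ring
      _ ≤ η * b * b ^ (p + 1) := h4
      _ = η * b ^ (p + 2) := by ring
      _ ≤ _ := by linarith

lemma one_add_sum_le (s : Finset ι) {x : ι → ℝ} (h : ∀ i, 0 ≤ x i) :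
    1 + ∑ j ∈ s, x j ≤ ∏ j ∈ s, (1 + x j) := by
  classical
  induction s using Finset.induction_on with
  | empty => simp
  | insert i s hi ih =>
    rw [sum_insert hi, prod_insert hi]
    nlinarith [h i, one_le_prod s h]

lemma poly_le (p : ℕ) : ∃ C : ℝ, 0 < C ∧ ∀ (ι : Type) (s : Finset ι) (x : ι → ℝ),
    (∀ i, 0 ≤ x i) → (∀ i, x i ≤ 1) →
      (∑ j ∈ s, x j) * (∑ j ∈ s, x j + 1) ^ p ≤ C * (∏ j ∈ s, (1 + x j) - 1) := by
  refine ⟨(p + 2) ^ p + 2 ^ p * ((p + 1) ^ (p + 1) * 2), by positivity, fun ι s x h h1 => ?_⟩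
  have S0 : 0 ≤ ∑ j ∈ s, x j := sum_nonneg fun j _ => h j
  have h2 := one_add_sum_le s h
  have h3 := dich s h (show 1 ≤ p + 1 by omega)
  generalize ∑ j ∈ s, x j = S at *
  generalize ∏ j ∈ s, (1 + x j) = W at *
  have a0 : (0 : ℝ) ≤ (p + 2) ^ p * (W - 1) := mul_nonneg (by positivity) (by linarith)
  have b0 : (0 : ℝ) ≤ 2 ^ p * ((p + 1) ^ (p + 1) * 2) * (W - 1) :=
    mul_nonneg (by positivity) (by linarith)
  rcases le_total S (p + 1) with e | e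
  · have h4 : S * (S + 1) ^ p ≤ (W - 1) * (p + 2) ^ p :=
      mul_le_mul (by linarith) (pow_le_pow_left₀ (by linarith) (by linarith) _) (by positivity)
        (by linarith)
    nlinarith
  · have p0 : (0 : ℝ) ≤ p := Nat.cast_nonneg p
    have h4 : S ^ (p + 1) ≤ (p + 1) ^ (p + 1) * W := by
      rcases h3 with ⟨i, -, e1⟩ | e1
      · push_cast at e1
        have : S ≤ p + 1 := by nlinarith [h1 i]
        refine (pow_le_pow_left₀ S0 this _).trans (le_mul_of_one_le_right (by positivity) ?_)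
        linarith
      · push_cast at e1
        rwa [div_pow, div_le_iff₀ (by positivity), mul_comm] at e1
    have h5 : S * (S + 1) ^ p ≤ S * (2 * S) ^ p := by gcongr; linarith
    have h6 : W ≤ 2 * (W - 1) := by linarith
    calc _ ≤ S * (2 * S) ^ p := h5
      _ = 2 ^ p * S ^ (p + 1) := by ring
      _ ≤ 2 ^ p * ((p + 1) ^ (p + 1) * (2 * (W - 1))) := by
          gcongr
          exact h4.trans (by gcongr)
      _ ≤ _ := by nlinarith

lemma cross_le (p : ℕ) : ∃ C : ℝ, 0 < C ∧ ∀ (ι : Type) (s : Finset ι) (x : ι → ℝ),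
    (∀ i, 0 ≤ x i) → (∀ i, x i ≤ 1) → (∑ j ∈ s, x j) ^ (p + 2) - ∑ j ∈ s, x j ^ (p + 2) ≤
      C * (∏ j ∈ s, (1 + x j) - 1 - ∑ j ∈ s, x j) := by
  classical
  obtain ⟨C, C0, hC⟩ := poly_le p
  refine ⟨(p + 2) * C, by positivity, fun ι s x h h1 => ?_⟩
  induction s using Finset.induction_on with
  | empty => simp
  | insert i s hi ih =>
    rw [sum_insert hi, prod_insert hi, sum_insert hi]
    have S0 : 0 ≤ ∑ j ∈ s, x j := sum_nonneg fun j _ => h j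
    have h2 := cross2 p (h i) S0
    have h3 := hC ι s x h h1
    have h4 : (x i + ∑ j ∈ s, x j) ^ p ≤ (∑ j ∈ s, x j + 1) ^ p :=
      pow_le_pow_left₀ (add_nonneg (h i) S0) (by linarith [h1 i]) _
    have h5 : x i * (∑ j ∈ s, x j) * (x i + ∑ j ∈ s, x j) ^ p ≤
        x i * (C * (∏ j ∈ s, (1 + x j) - 1)) := by
      rw [mul_assoc]
      exact mul_le_mul_of_nonneg_left ((mul_le_mul_of_nonneg_left h4 S0).trans h3) (h i)
    nlinarith [mul_le_mul_of_nonneg_left h5 (show (0 : ℝ) ≤ p + 2 by positivity)]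

lemma sum_pow_ge (s : Finset ι) {x : ι → ℝ} (h : ∀ i, 0 ≤ x i) (p : ℕ) :
    ∑ j ∈ s, x j ^ (p + 1) ≤ (∑ j ∈ s, x j) ^ (p + 1) := by
  rw [pow_succ (∑ j ∈ s, x j), mul_sum]
  refine sum_le_sum fun i hi => ?_
  rw [pow_succ]
  exact mul_le_mul_of_nonneg_right
    (pow_le_pow_left₀ (h i) (single_le_sum (fun j _ => h j) hi) _) (h i)

end Pool.Agent.Lib.MP_242fd5_gt.Dn
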