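import Pool.Agent.Lib.MP_242fd5_gt.Cu.B2
import Pool.Agent.Lib.MP_242fd5_gt.Dn.P

set_option autoImplicit false

open MeasureTheory Set Metric Filter Topology

namespace Pool.Agent.Lib.MP_242fd5_gt.Dn

open Ty Cu

variable {q p : ℕ}

/-- the `L^p` norm to the power `p` -/
noncomputable def E (p : ℕ) (φ : X q) : ℝ := I (|φ| ^ p)

lemma E_nonneg (φ : X q) : 0 ≤ E p φ := I_abs_pow_nonneg φ p

lemma E_mono {φ ψ : X q} (h : |φ| ≤ ψ) : E p φ ≤ E p ψ :=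
  I_mono (pow_le_pow_left₀ (abs_nonneg _) (h.trans (le_abs_self _)) _)

lemma E_add (φ ψ : X q) : E p (φ + ψ) ≤ 2 ^ p * (E p φ + E p ψ) := by
  rw [E, E, E, ← map_add, ← I_smul]
  exact I_mono fun u => (pow_le_pow_left₀ (abs_nonneg _) (abs_add_le (φ u) (ψ u)) p).trans
    (add_pow_two p (abs_nonneg _) (abs_nonneg _))

lemma E_smul {c : ℝ} (hc : 0 ≤ c) (φ : X q) : E p (c • φ) = c ^ p * E p φ := by
  rw [E, E, abs_smul', abs_of_nonneg hc, smul_pow, I_smul]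

lemma E_norm (φ : X q) : E p φ ≤ ‖φ‖ ^ p := by
  rw [← I_const (q := q) (‖φ‖ ^ p)]
  exact I_mono fun u => (pow_le_pow_left₀ (abs_nonneg _) (φ.norm_coe_le_norm u) p).trans_eq
    (mul_one _).symm

lemma E_of_nonneg {φ : X q} (h : 0 ≤ φ) : E p φ = I (φ ^ p) := by rw [E, abs_of_nonneg h]

lemma act_le (m : ℕ) (g : G q) : ∃ C : ℝ, 0 < C ∧ ∀ χ : X q, 0 ≤ χ → I (act m g χ) ≤ C * I χ := by
  let θ : X q := ⟨fun u => rh g.symm u ^ m / rh g.symm u ^ (q + 3),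
    Continuous.div (by fun_prop) (by fun_prop) fun u => (pow_pos (rh_pos _ u) _).ne'⟩
  have j := jac_pos g
  refine ⟨(‖θ‖ + 1) * (jac g)⁻¹, by positivity, fun χ h => ?_⟩
  rw [mul_assoc, ← I_act, ← I_smul]
  refine I_mono fun u => ?_
  show rh g.symm u ^ m * χ (pr g u) ≤ (‖θ‖ + 1) * (rh g.symm u ^ (q + 3) * χ (pr g u))
  have h1 : rh g.symm u ^ m / rh g.symm u ^ (q + 3) ≤ ‖θ‖ + 1 :=
    ((le_abs_self _).trans (θ.norm_coe_le_norm u)).trans (by linarith)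
  rw [div_le_iff₀ (pow_pos (rh_pos _ u) _)] at h1
  rw [← mul_assoc]
  exact mul_le_mul_of_nonneg_right h1 (h _)

lemma A_act' (g : G q) (φ : X q) : A (act (q + 2) g φ) = act 1 (J g) (A φ) := by
  rw [A_act, act_J]

lemma N_act (g : G q) (φ : X q) : N (act 1 g φ) = act 1 (J g) (N φ) := by
  rw [N, ← act_pow, A_act', N]

/-- `F` is the limit in `L^p` of `N (A ψ)` with `ψ > 0` of small mass -/
def Att (p : ℕ) (F : X q) : Prop :=
  ∀ ε : ℝ, 0 < ε → ∃ ψ : X q, (∀ u, 0 < ψ u) ∧ I ψ ≤ ε ∧ E p (N (A ψ) - F) ≤ ε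

lemma le_of_div {x C ε : ℝ} (hC : 0 < C) (h : x ≤ ε / C) : C * x ≤ ε := (le_div_iff₀' hC).1 h

theorem Att.act {F : X q} (h : Att p F) (g : G q) : Att p (act 1 g F) := fun ε hε => by
  obtain ⟨g1, rfl⟩ := J_surj g
  obtain ⟨g2, rfl⟩ := J_surj g1
  obtain ⟨C, C0, hC⟩ := act_le (q + 2) g2
  obtain ⟨D, D0, hD⟩ := act_le p (J (J g2))
  obtain ⟨ψ, h0, h1, h2⟩ := h (min (ε / C) (ε / D)) (by positivity)
  refine ⟨Cu.act (q + 2) g2 ψ, fun u => mul_pos (pow_pos (rh_pos _ u) _) (h0 _),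
    (hC ψ fun u => (h0 u).le).trans (le_of_div C0 (h1.trans (min_le_left _ _))), ?_⟩
  rw [A_act', N_act, ← map_sub, E, ← act_abs, ← act_pow]
  exact (hD _ (pow_nonneg (abs_nonneg _) _)).trans (le_of_div D0 (h2.trans (min_le_right _ _)))

theorem Att.smul {F : X q} (h : Att p F) {c : ℝ} (hc : 0 < c) : Att p (c • F) := fun ε hε => by
  obtain ⟨s, s0, e⟩ : ∃ s : ℝ, 0 < s ∧ s ^ (q + 2) = c :=
    ⟨c ^ (((q + 2 : ℕ) : ℝ)⁻¹), Real.rpow_pos_of_pos hc _,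
      Real.rpow_inv_natCast_pow hc.le (Nat.succ_ne_zero _)⟩
  obtain ⟨ψ, h0, h1, h2⟩ := h (min (ε / s) (ε / c ^ p)) (by positivity)
  refine ⟨s • ψ, fun u => mul_pos s0 (h0 u), ?_, ?_⟩
  · rw [I_smul]
    exact le_of_div s0 (h1.trans (min_le_left _ _))
  · rw [map_smul, N_smul, e, ← smul_sub, E_smul hc.le]
    exact le_of_div (pow_pos hc _) (h2.trans (min_le_right _ _))

theorem att_closed : IsClosed {F : X q | Att (p + 1) F} := by
  refine isClosed_of_closure_subset fun F hF ε hε => ?_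
  obtain ⟨τ, τ0, τ1, τε, e⟩ : ∃ τ : ℝ, 0 < τ ∧ τ ≤ 1 ∧ τ ≤ ε ∧ 2 ^ (p + 1) * (τ + τ) ≤ ε := by
    refine ⟨min 1 (min ε (ε / (2 ^ (p + 1) * 2))), by positivity, min_le_left _ _,
      (min_le_right _ _).trans (min_le_left _ _), ?_⟩
    rw [← two_mul, ← mul_assoc]
    exact le_of_div (by positivity) ((min_le_right _ _).trans (min_le_right _ _))
  obtain ⟨F', h, h1⟩ := Metric.mem_closure_iff.1 hF τ τ0
  obtain ⟨ψ, h0, h2, h3⟩ := h τ τ0
  refine ⟨ψ, h0, h2.trans τε, ?_⟩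
  rw [← sub_add_sub_cancel _ F']
  refine (E_add _ _).trans (le_trans ?_ e)
  rw [dist_comm, dist_eq_norm] at h1
  gcongr
  exact (E_norm _).trans ((pow_le_of_le_one (norm_nonneg _) (h1.le.trans τ1) (by omega)).trans h1.le)

theorem Att.add {F F' : X q} (h : Att (p + 1) F) (h' : Att (p + 1) F') : Att (p + 1) (F + F') :=
  fun ε hε => by
  obtain ⟨τ, τ0, τ1, τε, e⟩ : ∃ τ : ℝ, 0 < τ ∧ τ ≤ 1 ∧ τ + τ ≤ ε ∧
      2 ^ (p + 1) * (2 ^ (p + 1) * (τ + τ) + 2 ^ (p + 1) * (τ + τ)) ≤ ε := by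
    refine ⟨min 1 (min (ε / 2) (ε / (2 ^ (p + 1) * 2 ^ (p + 1) * 4))), by positivity,
      min_le_left _ _, ?_, ?_⟩
    · rw [← two_mul]
      exact le_of_div two_pos ((min_le_right _ _).trans (min_le_left _ _))
    · have := le_of_div (C := 2 ^ (p + 1) * 2 ^ (p + 1) * 4) (by positivity)
        ((min_le_right 1 _).trans (min_le_right (ε / 2) (ε / _)))
      linarith
  obtain ⟨ψ, h0, h1, h2⟩ := h τ τ0
  have B0 : 0 < 2 ^ (p + 1) * (1 + E (p + 1) F') := by have := E_nonneg (p := p + 1) F'; positivity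
  obtain ⟨η, η0, η1, hη⟩ : ∃ η : ℝ, 0 < η ∧ η ≤ 1 ∧ 2 ^ (p + 1) * (1 + E (p + 1) F') * η ≤ τ :=
    ⟨min 1 (τ / _), by positivity, min_le_left _ _, le_of_div B0 (min_le_right _ _)⟩
  obtain ⟨C, C0, hC⟩ := cross_eta q (norm_nonneg (A ψ)) η0
  obtain ⟨ψ', h0', h1', h2'⟩ := h' (min τ (τ / C ^ (p + 1))) (by positivity)
  have a0 : 0 ≤ A ψ := A_nonneg fun u => (h0 u).le
  have b0 : 0 ≤ A ψ' := A_nonneg fun u => (h0' u).le
  have m0 : 0 ≤ A ψ' ⊓ 1 := le_inf b0 zero_le_one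
  refine ⟨ψ + ψ', fun u => add_pos (h0 u) (h0' u), ?_, ?_⟩
  · rw [map_add]
    linarith [h1'.trans (min_le_left _ _)]
  have e1 : N (A (ψ + ψ')) - (F + F') = (N (A ψ) - F + (N (A ψ') - F')) +
      A ((A ψ + A ψ') ^ (q + 2) - A ψ ^ (q + 2) - A ψ' ^ (q + 2)) := by
    simp only [N, map_add, map_sub]
    abel
  have e2 : |A ((A ψ + A ψ') ^ (q + 2) - A ψ ^ (q + 2) - A ψ' ^ (q + 2))| ≤
      η • N (A ψ') + C • A (A ψ' ⊓ 1) := by
    rw [abs_of_nonneg (A_nonneg fun u => by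
      have : A ψ u ^ (q + 2) + A ψ' u ^ (q + 2) ≤ (A ψ u + A ψ' u) ^ (q + 2) :=
        pow_add_pow_le (a0 u) (b0 u) (show q + 2 ≠ 0 by omega)
      show 0 ≤ (A ψ u + A ψ' u) ^ (q + 2) - A ψ u ^ (q + 2) - A ψ' u ^ (q + 2)
      linarith), N, ← map_smul, ← map_smul, ← map_add A (η • _)]
    refine A_mono fun u => ?_
    have := hC (A ψ u) (A ψ' u) (a0 u) ((le_abs_self _).trans ((A ψ).norm_coe_le_norm u)) (b0 u)
    show (A ψ u + A ψ' u) ^ (q + 2) - A ψ u ^ (q + 2) - A ψ' u ^ (q + 2) ≤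
      η * A ψ' u ^ (q + 2) + C * min (A ψ' u) 1
    linarith
  have e3 : E (p + 1) (η • N (A ψ')) ≤ τ := by
    rw [E_smul η0.le, ← sub_add_cancel (N (A ψ')) F', mul_comm]
    refine le_trans (mul_le_mul ((E_add _ _).trans ?_) (pow_le_of_le_one η0.le η1 (by omega))
      (by positivity) B0.le) hη
    gcongr
    exact (h2'.trans (min_le_left _ _)).trans τ1
  have e4 : E (p + 1) (C • A (A ψ' ⊓ 1)) ≤ τ := by
    rw [E_smul C0.le]
    refine le_of_div (pow_pos C0 _) (le_trans ?_ (h1'.trans (min_le_right _ _)))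
    rw [E_of_nonneg (A_nonneg m0), ← I_A ψ']
    refine (I_mono (pow_le_of_le_one (A_nonneg m0) ((A_mono inf_le_right).trans_eq A_one)
      (by omega))).trans ?_
    rw [I_A]
    exact I_mono inf_le_left
  rw [e1]
  refine (E_add _ _).trans (le_trans ?_ e)
  gcongr
  · refine (E_add _ _).trans ?_
    gcongr
    exact h2'.trans (min_le_left _ _)
  · refine (E_mono e2).trans ((E_add _ _).trans ?_)
    gcongr

theorem att_convex : Convex ℝ {F : X q | Att (p + 1) F} :=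
  convex_iff_forall_pos.2 fun _ h _ h' _ _ ha hb _ => (Att.smul h ha).add (Att.smul h' hb)

theorem att_rh (h : Att p (1 : X q)) (g : G q) : Att p (rh g) := by
  have := h.act g.symm
  rwa [← rh_refl, act_rh] at this

end Pool.Agent.Lib.MP_242fd5_gt.Dn
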