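import Pool.Agent.Lib.MP_242fd5_gt.Dn.R
import Pool.Agent.Lib.MP_242fd5_gt.Dn.P

set_option autoImplicit false

open MeasureTheory Set Metric Filter Topology

namespace Pool.Agent.Lib.MP_242fd5_gt.Dn

open Ty Cu

variable {q k : ℕ}

lemma pow_le_exp {y : ℝ} (h : 0 ≤ y) (k : ℕ) : (1 + y) ^ k ≤ Real.exp (k * y) := by
  rw [Real.exp_nat_mul]
  exact pow_le_pow_left₀ (by linarith) (by linarith [Real.add_one_le_exp y]) _

lemma pow_le_three {y : ℝ} (h : 0 ≤ y) {k : ℕ} (e : k * y = 1) : (1 + y) ^ k ≤ 3 :=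
  (pow_le_exp h k).trans (by rw [e]; exact Real.exp_one_lt_three.le)

lemma pow_sub_le {y : ℝ} (h : 0 ≤ y) {k : ℕ} (e : k * y ≤ 1) :
    (1 + y) ^ k - 1 - k * y ≤ (k * y) ^ 2 := by
  have := Real.abs_exp_sub_one_sub_id_le (x := k * y) (by rwa [abs_of_nonneg (by positivity)])
  linarith [pow_le_exp h k, le_abs_self (Real.exp (k * y) - 1 - k * y)]

theorem select (hk : 1 ≤ k) {x Z : Sp q → X q} (cx : Continuous x) (cZ : Continuous Z)
    (sx : ∀ v u, x v u = x u v) (sZ : ∀ v u, Z v u = Z u v) (x0 : ∀ v, 0 ≤ x v) (Z0 : ∀ v, 0 ≤ Z v)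
    {μ c θ : ℝ} (μ0 : 0 < μ) (hμ : ∀ u, I (x u) = μ) (w1 : k * μ ≤ 1) (hZ : ∀ u, k * I (Z u) = 1)
    (m : ℕ) (hm : ∀ u, k * I (Z u ^ m) ≤ 1) (c0 : 0 ≤ c) (θ0 : 0 < θ)
    (h2 : ∀ u, k * I (Z u ^ 2) + c * (k * μ) ^ 2 ≤ θ) :
    ∃ v : Fin k → Sp q, I (∏ i, (1 + (k * μ)⁻¹ • x (v i))) ≤ 8 ∧
      I (∑ i, Z (v i) ^ m + ∏ i, (1 + Z (v i))) ≤ 8 ∧ I ((∑ i, Z (v i) - 1) ^ 2) ≤ 8 * θ ∧
      c * I (∏ i, (1 + x (v i)) - 1 - ∑ i, x (v i)) ≤ 8 * θ := by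
  have k0 : (0 : ℝ) < k := by exact_mod_cast hk
  obtain ⟨v, hv⟩ := choice (B := 8) (fun v : Fin k → Sp q => ∏ i, (1 + (k * μ)⁻¹ • x (v i)) +
      (∑ i, Z (v i) ^ m + ∏ i, (1 + Z (v i))) + θ⁻¹ • ((∑ i, Z (v i) - 1) ^ 2 +
        c • (∏ i, (1 + x (v i)) - 1 - ∑ i, x (v i)))) (by fun_prop) fun u => by
    have e : ∀ v : Fin k → Sp q, (∏ i, (1 + (k * μ)⁻¹ • x (v i)) +
        (∑ i, Z (v i) ^ m + ∏ i, (1 + Z (v i))) + θ⁻¹ • ((∑ i, Z (v i) - 1) ^ 2 +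
          c • (∏ i, (1 + x (v i)) - 1 - ∑ i, x (v i))) : X q) u =
        ∏ i, (1 + (k * μ)⁻¹ • x u) (v i) + (∑ i, (Z u ^ m) (v i) + ∏ i, (1 + Z u) (v i)) +
          θ⁻¹ * ((∑ i, Z u (v i) - 1) ^ 2 +
            c * (∏ i, (1 + x u) (v i) - 1 - ∑ i, x u (v i))) := fun v => by
      simp [sx u, sZ u, mul_add]
    simp only [e]
    rw [integral_add (cint (by fun_prop) _) (cint (by fun_prop) _),
      integral_add (cint (by fun_prop) _) (cint (by fun_prop) _),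
      integral_add (cint (by fun_prop) _) (cint (by fun_prop) _), integral_const_mul,
      integral_add (cint (by fun_prop) _) (cint (by fun_prop) _), integral_const_mul,
      integral_sub (cint (by fun_prop) _) (cint (by fun_prop) _),
      integral_sub (cint (by fun_prop) _) (cint (by fun_prop) _), E_prod, E_prod, E_prod, E_sum,
      E_sum, integral_const, probReal_univ, one_smul]
    simp only [map_add, I_one, I_smul, hμ]
    have a1 : (1 + (k * μ)⁻¹ * μ) ^ k ≤ 3 := pow_le_three (by positivity) (by field_simp)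
    have a2 : (1 + I (Z u)) ^ k ≤ 3 := pow_le_three (I_nonneg (Z0 u)) (hZ u)
    have a3 := mul_le_mul_of_nonneg_left (pow_sub_le μ0.le w1) c0
    have a4 : θ⁻¹ * (∫ v, (∑ i, Z u (v i) - 1) ^ 2 ∂pk q k + c * ((1 + μ) ^ k - 1 - k * μ)) ≤ 1 := by
      rw [inv_mul_le_iff₀ θ0]
      linarith [E_var (Z u) (hZ u), h2 u]
    linarith [hm u]
  rw [map_add, map_add I (∏ i, _), I_smul, map_add I (_ ^ 2), I_smul] at hv
  have b1 : 0 ≤ I (∏ i, (1 + (k * μ)⁻¹ • x (v i))) :=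
    I_nonneg (Finset.prod_nonneg fun i _ => add_nonneg zero_le_one
      (smul_nonneg (by positivity) (x0 _)))
  have b2 : 0 ≤ I (∑ i, Z (v i) ^ m + ∏ i, (1 + Z (v i))) :=
    I_nonneg (add_nonneg (Finset.sum_nonneg fun i _ => pow_nonneg (Z0 _) _)
      (Finset.prod_nonneg fun i _ => add_nonneg zero_le_one (Z0 _)))
  have b3 : 0 ≤ I ((∑ i, Z (v i) - 1) ^ 2) := I_nonneg fun u => sq_nonneg _
  have b4 : 0 ≤ c * I (∏ i, (1 + x (v i)) - 1 - ∑ i, x (v i)) :=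
    mul_nonneg c0 (I_nonneg <| ContinuousMap.le_def.2 fun u => by
      have := one_add_sum_le Finset.univ (x := fun i => x (v i) u) fun i => x0 _ u
      simp only [ContinuousMap.sub_apply, ContinuousMap.coe_prod, ContinuousMap.coe_sum,
        Finset.prod_apply, Finset.sum_apply, ContinuousMap.add_apply, ContinuousMap.one_apply,
        ContinuousMap.zero_apply]
      linarith)
  have b5 := mul_nonneg (inv_pos.2 θ0).le (add_nonneg b3 b4)
  have b6 : I ((∑ i, Z (v i) - 1) ^ 2) + c * I (∏ i, (1 + x (v i)) - 1 - ∑ i, x (v i)) ≤ 8 * θ := by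
    rw [mul_comm 8, ← inv_mul_le_iff₀ θ0]
    linarith
  exact ⟨v, by linarith, by linarith, by linarith, by linarith⟩

end Pool.Agent.Lib.MP_242fd5_gt.Dn
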