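import Pool.Agent.Lib.MP_242fd5_gt.Dn.K
import Pool.Agent.Lib.MP_242fd5_gt.Dn.S
import Pool.Agent.Lib.MP_242fd5_gt.Dn.C

set_option autoImplicit false

open MeasureTheory Set Metric Filter Topology

namespace Pool.Agent.Lib.MP_242fd5_gt.Dn

open Ty Cu

variable {q p : ℕ}

lemma tangent {x a : ℝ} (hx : 0 ≤ x) (ha : 0 ≤ a) (m : ℕ) :
    a ^ (m + 1) + (m + 1) * a ^ m * (x - a) ≤ x ^ (m + 1) := by
  induction m with
  | zero => simp
  | succ m ih =>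
    have h1 := mul_le_mul_of_nonneg_left ih hx
    have h2 : 0 ≤ ((m : ℝ) + 1) * a ^ m * (x - a) ^ 2 := by positivity
    push_cast
    calc _ = x * (a ^ (m + 1) + (m + 1) * a ^ m * (x - a)) - (m + 1) * a ^ m * (x - a) ^ 2 := by ring
      _ ≤ x * x ^ (m + 1) := by linarith
      _ = _ := by ring

lemma A_pow_le {φ : X q} (h : 0 ≤ φ) (m : ℕ) : A φ ^ (m + 1) ≤ A (φ ^ (m + 1)) := fun u => by
  have a0 : 0 ≤ A φ u := A_nonneg h u
  have := A_mono (φ := A φ u ^ (m + 1) • (1 : X q) + ((m + 1) * A φ u ^ m) • (φ - A φ u • 1))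
    (ψ := φ ^ (m + 1)) (ContinuousMap.le_def.2 fun v => by
      simpa using tangent (h v) a0 m)
  rw [map_add, map_smul, map_smul, map_sub, map_smul, A_one] at this
  simpa using ContinuousMap.le_def.1 this u

lemma par (q p : ℕ) {α : ℝ} (hα : 0 < α) : ∃ (δ : ℝ) (hδ : 0 < δ) (k : ℕ), δ ≤ 1 ∧ 1 ≤ k ∧
    k * I (kx hδ (e0 q)) ^ 2 ≤ α * δ ∧ k * δ ^ (q + 2) ≤ α * (k * δ) ^ (p + 2) := by
  have h1 := (tendsto_pow_const_mul_const_pow_of_abs_lt_one 2 (r := 1 / 2)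
    (by norm_num [abs_of_pos])).const_mul ((2 ^ (q + 4) * (p + 3) : ℝ) ^ 2)
  rw [mul_zero] at h1
  obtain ⟨l, hl, l1⟩ := ((h1.eventually (ge_mem_nhds hα)).and (eventually_ge_atTop 1)).exists
  have l1' : (1 : ℝ) ≤ l := by exact_mod_cast l1
  have p0 : (0 : ℝ) ≤ p := Nat.cast_nonneg p
  have e : ((2 ^ (l * (p + 1)) : ℕ) : ℝ) * (1 / 2) ^ (l * (p + 2)) = (1 / 2) ^ l := by
    rw [show l * (p + 2) = l * (p + 1) + l by ring, pow_add, ← mul_assoc]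
    push_cast
    rw [← mul_pow]
    norm_num
  have d1 : (1 / 2 : ℝ) ^ (l * (p + 2)) ≤ 1 := pow_le_one₀ (by norm_num) (by norm_num)
  have d0 := hp (l * (p + 2))
  have h2 : (2 ^ (q + 4) * (1 + ((l * (p + 2) : ℕ) : ℝ))) ^ 2 * (1 / 2) ^ l ≤ α := by
    refine le_trans ?_ hl
    rw [← mul_assoc, ← mul_pow, mul_assoc]
    gcongr
    push_cast
    nlinarith
  refine ⟨_, d0, 2 ^ (l * (p + 1)), d1, Nat.one_le_two_pow, ?_, ?_⟩
  · refine le_trans (mul_le_mul_of_nonneg_left (pow_le_pow_left₀ (I_nonneg (kx_nonneg _ _))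
      (mu_up _) 2) (Nat.cast_nonneg _)) ?_
    calc _ = (2 ^ (q + 4) * (1 + ((l * (p + 2) : ℕ) : ℝ))) ^ 2 *
          (((2 ^ (l * (p + 1)) : ℕ) : ℝ) * (1 / 2) ^ (l * (p + 2))) * (1 / 2) ^ (l * (p + 2)) := by
          ring
      _ ≤ _ := by rw [e]; gcongr
  · have h3 : (1 / 2 : ℝ) ^ l ≤ α := by
      refine le_trans (le_mul_of_one_le_left (by positivity) (one_le_pow₀ ?_)) h2
      exact one_le_mul_of_one_le_of_one_le (one_le_pow₀ one_le_two) (by simp; positivity)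
    rw [e, ← pow_mul (1 / 2 : ℝ) l]
    calc _ ≤ ((2 ^ (l * (p + 1)) : ℕ) : ℝ) * ((1 / 2) ^ (l * (p + 2))) ^ 2 := by
          gcongr ?_ * ?_
          exact pow_le_pow_of_le_one d0.le d1 (by omega)
      _ = (1 / 2) ^ l * (1 / 2) ^ (l * (p + 2)) := by rw [sq, ← mul_assoc, e]
      _ ≤ _ := by gcongr

lemma E_cut (φ : X q) {K : ℝ} (hK : 0 < K) (p : ℕ) :
    E (p + 1) φ ≤ K ^ p * I |φ| + K⁻¹ * E (p + 2) φ := by
  rw [E, E, ← I_smul, ← I_smul, ← map_add]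
  exact I_mono fun u => cut (abs_nonneg (φ u)) hK p

lemma I_abs_le (φ : X q) {η : ℝ} (hη : 0 < η) : I |φ| ≤ η + η⁻¹ * I (φ ^ 2) := by
  refine (I_mono (ψ := η • 1 + η⁻¹ • φ ^ 2) fun u => ?_).trans_eq
    (by rw [map_add, I_const, I_smul])
  show |φ u| ≤ η * 1 + η⁻¹ * φ u ^ 2
  rcases le_total |φ u| η with h | h
  · have : 0 ≤ η⁻¹ * φ u ^ 2 := by positivity
    linarith
  · have : |φ u| ≤ η⁻¹ * φ u ^ 2 := by
      rw [le_inv_mul_iff₀ hη, ← sq_abs, sq]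
      gcongr
    linarith

theorem core (hp : q + 1 ≤ p) : ∃ B : ℝ, 0 < B ∧ ∀ ε θ : ℝ, 0 < ε → 0 < θ → ∃ (ψ T : X q),
    (∀ u, 0 < ψ u) ∧ I ψ ≤ ε ∧ E (p + 2) (N (A ψ)) ≤ B ∧ I ((T - 1) ^ 2) ≤ θ ∧
      I |N (A ψ) - 1| ≤ I |T - 1| + θ := by
  obtain ⟨C, C0, hC⟩ := cross_le q
  obtain ⟨M, hM⟩ : ∃ M : ℝ, M = (((q + 2) * (p + 2) : ℕ) : ℝ) := ⟨_, rfl⟩
  have M0 : 0 < M := by rw [hM]; positivity
  refine ⟨2 ^ (p + 2) * ((M ^ (q + 2)) ^ (p + 2) * (((p + 2 : ℕ) : ℝ) ^ (p + 2) * 8) +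
    M ^ ((q + 2) * (p + 2)) * 8), by positivity, fun ε θ ε0 θ0 => ?_⟩
  obtain ⟨α, α0, α1, αε, α2, α3⟩ : ∃ α : ℝ, 0 < α ∧ α ≤ 1 ∧ α ≤ ε ^ (q + 2) ∧
      (θ / 24)⁻¹ ^ p * α ≤ θ / 24 ∧ C * α ≤ θ / 24 :=
    ⟨min (min 1 (ε ^ (q + 2))) (min (θ / 24 / (θ / 24)⁻¹ ^ p) (θ / 24 / C)), by positivity,
      (min_le_left _ _).trans (min_le_left _ _), (min_le_left _ _).trans (min_le_right _ _),
      le_of_div (by positivity) ((min_le_right _ _).trans (min_le_left _ _)),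
      le_of_div C0 ((min_le_right _ _).trans (min_le_right _ _))⟩
  obtain ⟨δ, δ0, k, δ1, k1, p1, p2⟩ := par q p α0
  have k0 : (0 : ℝ) < k := by exact_mod_cast k1
  obtain ⟨μ, hμ⟩ : ∃ μ, μ = I (kx δ0 (e0 q)) := ⟨_, rfl⟩
  obtain ⟨ν, hν⟩ : ∃ ν, ν = I (kx δ0 (e0 q) ^ (q + 2)) := ⟨_, rfl⟩
  have x1 : ∀ v : Sp q, kx δ0 v ≤ 1 := fun v u => kx_le_one δ0 δ1 v u
  have ν1 : δ ≤ ν := by
    rw [hν]
    exact (I_kx δ0 (e0 q)).ge.trans
      (I_mono (pow_le_pow_of_le_one (kx_nonneg _ _) (x1 _) (by omega)))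
  have ν2 : ν ≤ μ := hν ▸ hμ ▸ I_mono (pow_le_of_le_one (kx_nonneg _ _) (x1 _) (by omega))
  have ν0 : 0 < ν := δ0.trans_le ν1
  have μ0 : 0 < μ := ν0.trans_le ν2
  rw [← hμ] at p1
  obtain ⟨a, ha⟩ : ∃ a, a = (k * ν)⁻¹ := ⟨_, rfl⟩
  have a0 : 0 < a := by rw [ha]; positivity
  have aw : a * (k * μ) ^ 2 ≤ α := by
    rw [ha, inv_mul_le_iff₀ (by positivity)]
    nlinarith [mul_le_mul_of_nonneg_left ν1 α0.le]
  have w1 : k * μ ≤ 1 := by
    have : k * μ * μ ≤ 1 * μ := by nlinarith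
    exact le_of_mul_le_mul_right this μ0
  have aw' : a * (k * μ) ^ (q + 2) ≤ α := le_trans (mul_le_mul_of_nonneg_left
    (pow_le_pow_of_le_one (by positivity) w1 (by omega)) a0.le) aw
  have Z0 : ∀ v : Sp q, 0 ≤ a • N (kx δ0 v) := fun v => smul_nonneg a0.le (N_nonneg (kx_nonneg _ _))
  have hZ : ∀ u : Sp q, k * I (a • N (kx δ0 u)) = 1 := fun u => by
    rw [I_smul, N, I_A, I_kx_pow, ← hν, ha]
    field_simp
  have hm : ∀ u : Sp q, k * I ((a • N (kx δ0 u)) ^ (p + 2)) ≤ α := fun u => by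
    have h1 : I (N (kx δ0 u) ^ (p + 2)) ≤ δ ^ (q + 2) := by
      refine (I_mono (pow_le_pow_of_le_one (N_nonneg (kx_nonneg _ _)) ?_
        (show q + 3 ≤ p + 2 by omega))).trans_eq ?_
      · rw [N_kx]
        exact fun v => ky_le_one δ0 δ1 u v
      · rw [N_kx, smul_pow, I_smul, I_kx]
        field_simp
        ring
    rw [smul_pow, I_smul, mul_left_comm, ha, inv_pow, inv_mul_le_iff₀ (by positivity), mul_comm _ α]
    calc _ ≤ k * δ ^ (q + 2) := by gcongr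
      _ ≤ _ := p2.trans (by gcongr)
  obtain ⟨v, v1, v2, v3, v4⟩ := select k1 (x := fun v => kx δ0 v) (Z := fun v => a • N (kx δ0 v))
    (c := a * C) (θ := θ / 8) (cont_kx' δ0) (by simp only [N_kx]; fun_prop) (kx_symm δ0)
    (fun v u => by simp only [N_kx, ContinuousMap.smul_apply, kx_symm _ v u]) (kx_nonneg δ0) Z0 μ0
    (fun u => by simpa [hμ] using I_kx_pow δ0 u 1) w1 hZ (p + 2) (fun u => (hm u).trans α1)
    (by positivity) (by positivity) fun u => by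
      have h1 : I ((a • N (kx δ0 u)) ^ 2) ≤ θ / 24 * I (a • N (kx δ0 u)) +
          (θ / 24)⁻¹ ^ p * I ((a • N (kx δ0 u)) ^ (p + 2)) := by
        rw [← I_smul, ← I_smul ((θ / 24)⁻¹ ^ p), ← map_add]
        exact I_mono fun w => sq_cut (Z0 u w) (by positivity) p
      have h2 := mul_le_mul_of_nonneg_left (hm u) (show 0 ≤ (θ / 24)⁻¹ ^ p by positivity)
      have h3 := mul_le_mul_of_nonneg_left aw C0.le
      have h4 := mul_le_mul_of_nonneg_left h1 k0.le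
      have h5 : k * (θ / 24 * I (a • N (kx δ0 u))) = θ / 24 := by rw [mul_left_comm, hZ, mul_one]
      linarith
  obtain ⟨s, s0, es⟩ : ∃ s : ℝ, 0 < s ∧ s ^ (q + 2) = a :=
    ⟨a ^ (((q + 2 : ℕ) : ℝ)⁻¹), Real.rpow_pos_of_pos a0 _,
      Real.rpow_inv_natCast_pow a0.le (Nat.succ_ne_zero _)⟩
  choose g hg using fun i => J_surj (gv δ0 (v i))
  have eA : A (s • ∑ i, rh (g i) ^ (q + 2)) = s • ∑ i, kx δ0 (v i) := by
    rw [map_smul, map_sum]
    congr 1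
    exact Finset.sum_congr rfl fun i _ => (N_rh (g i)).trans (congrArg rh (hg i))
  obtain ⟨S, hS⟩ : ∃ S, S = ∑ i, kx δ0 (v i) := ⟨_, rfl⟩
  obtain ⟨P, hP⟩ : ∃ P, P = ∑ i, kx δ0 (v i) ^ (q + 2) := ⟨_, rfl⟩
  have Su : ∀ u, S u = ∑ i, kx δ0 (v i) u := fun u => by simp [hS]
  have Pu : ∀ u, P u = ∑ i, kx δ0 (v i) u ^ (q + 2) := fun u => by simp [hP]
  have eT : ∑ i, a • N (kx δ0 (v i)) = a • A P := by rw [hP, map_sum, Finset.smul_sum]; rfl
  have T0 : 0 ≤ a • A P := eT ▸ Finset.sum_nonneg fun i _ => Z0 _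
  have eN : N (s • S) = a • A (S ^ (q + 2)) := by rw [N_smul, es, N]
  have S0 : 0 ≤ S := hS ▸ Finset.sum_nonneg fun i _ => kx_nonneg _ _
  refine ⟨s • ∑ i, rh (g i) ^ (q + 2), a • A P, fun u => mul_pos s0 ?_, ?_, ?_,
    by rw [← eT]; linarith, ?_⟩
  · rw [ContinuousMap.coe_sum, Finset.sum_apply]
    exact Finset.sum_pos (fun i _ => pow_pos (rh_pos _ u) _) ⟨⟨0, k1⟩, Finset.mem_univ _⟩
  · rw [← I_A, eA, I_smul, map_sum]
    have : ∀ u : Sp q, I (kx δ0 u) = μ := fun u => by simpa [hμ] using I_kx_pow δ0 u 1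
    simp only [this, Finset.sum_const, Finset.card_univ, Fintype.card_fin, nsmul_eq_mul]
    refine le_of_pow_le_pow_left₀ (show q + 2 ≠ 0 by omega) ε0.le ?_
    rw [mul_pow, es]
    exact aw'.trans αε
  · obtain ⟨R, hR⟩ : ∃ R, R = (S ^ (q + 2) - M ^ (q + 2) • P) ⊔ 0 := ⟨_, rfl⟩
    have R0 : 0 ≤ a • R := smul_nonneg a0.le (hR ▸ le_sup_right)
    have h1 : |a • A (S ^ (q + 2))| ≤ M ^ (q + 2) • a • A P + A (a • R) := by
      rw [abs_of_nonneg (smul_nonneg a0.le (A_nonneg (pow_nonneg S0 _))), smul_comm, map_smul,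
        ← smul_add, ← map_smul, ← map_smul, ← map_add, ← map_smul]
      exact A_mono (smul_le_smul_of_nonneg_left (sub_le_iff_le_add'.1 (hR ▸ le_sup_left)) a0.le)
    rw [eA, ← hS, eN]
    refine (E_mono h1).trans ((E_add _ _).trans ?_)
    gcongr
    · rw [E_smul (by positivity), E_of_nonneg T0]
      gcongr
      refine le_trans ?_ (mul_le_mul_of_nonneg_left v2 (by positivity))
      rw [← I_smul, ← eT]
      refine I_mono (ContinuousMap.le_def.2 fun u => ?_)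
      simpa [mul_add] using sum_pow_le Finset.univ (x := fun i => (a • N (kx δ0 (v i))) u) (fun i => Z0 _ u)
        (show 1 ≤ p + 2 by omega)
    · rw [E_of_nonneg (A_nonneg R0)]
      refine (I_mono (A_pow_le R0 _)).trans ?_
      have h2 : I (R ^ (p + 2)) ≤ (M * (k * μ)) ^ ((q + 2) * (p + 2)) * 8 := by
        refine le_trans ?_ (mul_le_mul_of_nonneg_left v1 (by positivity))
        rw [← I_smul]
        refine I_mono (ContinuousMap.le_def.2 fun u => ?_)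
        have := rem_le Finset.univ (x := fun i => kx δ0 (v i) u) (fun i => kx_nonneg _ _ u)
          (show 1 ≤ q + 2 by omega) (show 1 ≤ p + 2 by omega) (mul_pos k0 μ0)
        rw [← hM, ← Su, ← Pu] at this
        simpa [hR] using this
      rw [I_A, smul_pow, I_smul]
      calc _ ≤ a ^ (p + 2) * ((M * (k * μ)) ^ ((q + 2) * (p + 2)) * 8) := by gcongr
        _ = (a * (k * μ) ^ (q + 2)) ^ (p + 2) * (M ^ ((q + 2) * (p + 2)) * 8) := by
          rw [mul_pow M, mul_pow a, ← pow_mul]; ring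
        _ ≤ _ := mul_le_of_le_one_left (by positivity) (pow_le_one₀ (by positivity) (aw'.trans α1))
  · have h0 : 0 ≤ a • (S ^ (q + 2) - P) := smul_nonneg a0.le (ContinuousMap.le_def.2 fun u => by
      have := sum_pow_ge Finset.univ (x := fun i => kx δ0 (v i) u) (fun i => kx_nonneg _ _ u) (q + 1)
      rw [← Su, ← Pu] at this
      simpa using this)
    have h1 : a • A (S ^ (q + 2)) - 1 = (a • A P - 1) + A (a • (S ^ (q + 2) - P)) := by
      rw [map_smul, map_sub, smul_sub]; abel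
    rw [eA, ← hS, eN, h1]
    refine (I_mono (abs_add_le _ _)).trans ?_
    rw [map_add, abs_of_nonneg (A_nonneg h0), I_A, I_smul]
    have h2 : I (S ^ (q + 2) - P) ≤ C * I (∏ i, (1 + kx δ0 (v i)) - 1 - ∑ i, kx δ0 (v i)) := by
      rw [← I_smul]
      refine I_mono (ContinuousMap.le_def.2 fun u => ?_)
      have := hC _ Finset.univ (fun i => kx δ0 (v i) u) (fun i => kx_nonneg _ _ u) fun i => x1 _ u
      rw [← Pu] at this
      simpa [Su, mul_sub] using this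
    linarith [mul_le_mul_of_nonneg_left h2 a0.le]

theorem att_one (hp : q + 1 ≤ p) : Att (p + 1) (1 : X q) := fun ε hε => by
  obtain ⟨B, B0, hB⟩ := core hp
  obtain ⟨K, K0, hK⟩ : ∃ K : ℝ, 0 < K ∧ K⁻¹ * (2 ^ (p + 2) * (B + 1)) = ε / 2 :=
    ⟨2 ^ (p + 2) * (B + 1) / (ε / 2), by positivity, by field_simp⟩
  obtain ⟨η, η0, hη⟩ : ∃ η : ℝ, 0 < η ∧ K ^ p * (3 * η) = ε / 2 :=
    ⟨ε / 2 / K ^ p / 3, by positivity, by field_simp⟩
  obtain ⟨ψ, T, h0, h1, h2, h3, h4⟩ := hB ε (min η (η * η)) hε (by positivity)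
  refine ⟨ψ, h0, h1, (E_cut _ K0 p).trans ?_⟩
  have h5 : η⁻¹ * I ((T - 1) ^ 2) ≤ η := by
    rw [inv_mul_le_iff₀ η0]; exact h3.trans (min_le_right _ _)
  have h6 : I |N (A ψ) - 1| ≤ 3 * η := by linarith [I_abs_le (T - 1) η0, min_le_left η (η * η)]
  have h7 : E (p + 2) (N (A ψ) - 1) ≤ 2 ^ (p + 2) * (B + 1) := by
    rw [sub_eq_add_neg]
    refine (E_add _ _).trans ?_
    gcongr
    rw [E, abs_neg, abs_of_nonneg zero_le_one, one_pow, I_one]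
  calc _ ≤ K ^ p * (3 * η) + K⁻¹ * (2 ^ (p + 2) * (B + 1)) := by gcongr
    _ = ε := by rw [hK, hη, add_halves]

end Pool.Agent.Lib.MP_242fd5_gt.Dn
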