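import Pool.Agent.Lib.MP_242fd5_gt.Dn.R

set_option autoImplicit false

open MeasureTheory Set Metric Filter Topology
open scoped RealInnerProductSpace

namespace Pool.Agent.Lib.MP_242fd5_gt.Dn

open Ty Cu

variable {q k : ℕ} {a : ℝ}

/-- the map `x ↦ x + c ⟪v, x⟫ v` -/
noncomputable def tv (c : ℝ) (v : Sp q) : V (q + 3) →L[ℝ] V (q + 3) :=
  ContinuousLinearMap.id ℝ _ + c • (innerSL ℝ (v : V (q + 3))).smulRight (v : V (q + 3))

lemma tv_apply (c : ℝ) (v : Sp q) (x : V (q + 3)) :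
    tv c v x = x + (c * ⟪(v : V (q + 3)), x⟫) • (v : V (q + 3)) := by
  simp [tv, mul_smul]

lemma vv (v : Sp q) : ⟪(v : V (q + 3)), (v : V (q + 3))⟫ = 1 := by
  rw [real_inner_self_eq_norm_sq, un v, one_pow]

lemma tv_tv {c d : ℝ} (h : c + d + c * d = 0) (v : Sp q) (x : V (q + 3)) :
    tv c v (tv d v x) = x := by
  rw [tv_apply, tv_apply, inner_add_right, inner_smul_right, vv, add_assoc, ← add_smul,
    show d * ⟪(v : V (q + 3)), x⟫ + c * (⟪(v : V (q + 3)), x⟫ + d * ⟪(v : V (q + 3)), x⟫ * 1) =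
      (c + d + c * d) * ⟪(v : V (q + 3)), x⟫ by ring, h, zero_mul, zero_smul, add_zero]

/-- the dilatation with ratio `a` in the direction `v` -/
noncomputable def gv (ha : 0 < a) (v : Sp q) : G q :=
  ContinuousLinearEquiv.equivOfInverse (tv (a - 1) v) (tv (a⁻¹ - 1) v)
    (tv_tv (by field_simp; ring) v) (tv_tv (by field_simp; ring) v)

lemma jac_gv (ha : 0 < a) (v : Sp q) : jac (gv ha v) = a := by
  have : ((gv ha v : G q) : V (q + 3) →ₗ[ℝ] V (q + 3)) =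
      LinearMap.transvection ((a - 1) • (innerSL ℝ (v : V (q + 3))).toLinearMap) v := by
    ext1 x
    exact (tv_apply _ v x).trans (by simp [LinearMap.transvection.apply])
  rw [jac, this, LinearMap.transvection.det]
  simp [abs_of_pos ha]

lemma dual_gv (ha : 0 < a) (v : Sp q) : dual (gv ha v) = gv (inv_pos.2 ha) v :=
  (eq_dual fun x ξ => by
    show ⟪tv (a - 1) v x, tv (a⁻¹ - 1) v ξ⟫ = _
    simp only [tv_apply, inner_add_left, inner_add_right, inner_smul_left, inner_smul_right, vv,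
      conj_trivial, real_inner_comm (v : V (q + 3)) x]
    field_simp
    ring).symm

/-- radial function of the ellipsoid with axes `1, …, 1, a` and special axis `v` -/
noncomputable def kx (ha : 0 < a) (v : Sp q) : X q := rh (gv ha v)

/-- the cosine of the angle -/
noncomputable def tt (v u : Sp q) : ℝ := ⟪(v : V (q + 3)), (u : V (q + 3))⟫

lemma tt_comm (v u : Sp q) : tt v u = tt u v := real_inner_comm _ _

lemma tt_sq (v u : Sp q) : tt v u ^ 2 ≤ 1 := by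
  have := abs_real_inner_le_norm (v : V (q + 3)) u
  rw [un, un, mul_one] at this
  exact (sq_le_one_iff_abs_le_one _).2 this

lemma kx_pos (ha : 0 < a) (v u : Sp q) : 0 < kx ha v u := rh_pos _ u
lemma kx_nonneg (ha : 0 < a) (v : Sp q) : 0 ≤ kx ha v := rh_nonneg _

lemma kx_norm (ha : 0 < a) (v u : Sp q) :
    kx ha v u = ‖(u : V (q + 3)) + ((a⁻¹ - 1) * tt v u) • (v : V (q + 3))‖⁻¹ := by
  rw [tt, ← tv_apply]; rfl

lemma kx_apply (ha : 0 < a) (v u : Sp q) :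
    kx ha v u = (√(1 + (a⁻¹ ^ 2 - 1) * tt v u ^ 2))⁻¹ := by
  rw [kx_norm, ← Real.sqrt_sq (norm_nonneg _), norm_add_sq_real, norm_smul, un, un,
    inner_smul_right, real_inner_comm, ← tt, mul_one, Real.norm_eq_abs, sq_abs]
  congr 2
  ring

lemma kx_sq (ha : 0 < a) (v u : Sp q) :
    kx ha v u ^ 2 * (1 + (a⁻¹ ^ 2 - 1) * tt v u ^ 2) = 1 := by
  have h := kx_pos ha v u
  rw [kx_apply, inv_pos, Real.sqrt_pos] at h
  rw [kx_apply, inv_pow, Real.sq_sqrt h.le, inv_mul_cancel₀ h.ne']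

lemma kx_symm (ha : 0 < a) (v u : Sp q) : kx ha v u = kx ha u v := by
  rw [kx_apply, kx_apply, tt_comm]

lemma cont_kx (ha : 0 < a) : Continuous fun p : Sp q × Sp q => kx ha p.1 p.2 := by
  simp only [kx_norm]
  refine Continuous.inv₀ (by unfold tt; fun_prop) fun p => ?_
  have := kx_pos ha p.1 p.2
  rw [kx_norm, inv_pos] at this
  exact this.ne'

@[fun_prop] lemma cont_kx' (ha : 0 < a) : Continuous fun v : Sp q => kx ha v :=
  ContinuousMap.continuous_of_continuous_uncurry _ (cont_kx ha)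

lemma N_kx (ha : 0 < a) (v : Sp q) : N (kx ha v) = a • kx (inv_pos.2 ha) v := by
  rw [kx, N_rh, rh_J, jac_gv, dual_gv, kx]

lemma I_kx (ha : 0 < a) (v : Sp q) : I (kx ha v ^ (q + 3)) = a := by rw [kx, I_rh, jac_gv]

lemma I_zonal {φ ψ : X q} {v w : Sp q} (F : ℝ → ℝ) (hφ : ∀ u, φ u = F (tt v u))
    (hψ : ∀ u, ψ u = F (tt w u)) : I φ = I ψ := by
  obtain ⟨g, hg⟩ := exists_iso_map ((un v).trans (un w).symm)
  refine mul_left_cancel₀ (om_pos (q + 3)).ne' ?_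
  rw [← int_up φ (h := fun x => F ⟪(v : V (q + 3)), x⟫) fun u => (hφ u).symm,
    ← int_up ψ (h := fun x => F ⟪(w : V (q + 3)), x⟫) fun u => (hψ u).symm,
    ← int_mu_iso g fun x => F ⟪(w : V (q + 3)), x⟫, ← hg]
  simp only [g.inner_map_map]

lemma I_kx_pow (ha : 0 < a) (v : Sp q) (p : ℕ) : I (kx ha v ^ p) = I (kx ha (e0 q) ^ p) :=
  I_zonal (fun t => (√(1 + (a⁻¹ ^ 2 - 1) * t ^ 2))⁻¹ ^ p)
    (fun u => by rw [ContinuousMap.pow_apply, kx_apply])
    (fun u => by rw [ContinuousMap.pow_apply, kx_apply])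

lemma kx_le_one (ha : 0 < a) (h1 : a ≤ 1) (v u : Sp q) : kx ha v u ≤ 1 := by
  have h2 : 1 ≤ a⁻¹ ^ 2 := one_le_pow₀ ((one_le_inv₀ ha).2 h1)
  have h3 := kx_sq ha v u
  have h4 := kx_pos ha v u
  refine le_of_sq_le_sq ?_ zero_le_one
  nlinarith [mul_nonneg (sq_nonneg (kx ha v u)) (mul_nonneg (sub_nonneg.2 h2) (sq_nonneg (tt v u)))]

lemma kx_tt (ha : 0 < a) (v u : Sp q) : kx ha v u ^ 2 * tt v u ^ 2 ≤ a ^ 2 := by
  have h3 := kx_sq ha v u
  have h5 : a ^ 2 * a⁻¹ ^ 2 = 1 := by field_simp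
  have h6 := mul_nonneg (sq_nonneg (kx ha v u)) (sub_nonneg.2 (tt_sq v u))
  have h7 : kx ha v u ^ 2 * tt v u ^ 2 * a⁻¹ ^ 2 ≤ 1 := by nlinarith
  calc _ = a ^ 2 * (kx ha v u ^ 2 * tt v u ^ 2 * a⁻¹ ^ 2) := by field_simp
    _ ≤ a ^ 2 * 1 := by gcongr
    _ = _ := mul_one _

lemma half_le_kx (ha : 0 < a) (v u : Sp q) (h : |tt v u| ≤ a) : 1 / 2 ≤ kx ha v u := by
  have h3 := kx_sq ha v u
  have h4 : a⁻¹ ^ 2 * tt v u ^ 2 ≤ 1 := by
    rw [inv_pow, inv_mul_le_iff₀ (by positivity), mul_one, ← sq_abs (tt v u)]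
    exact pow_le_pow_left₀ (abs_nonneg _) h _
  refine le_of_sq_le_sq ?_ (kx_pos ha v u).le
  nlinarith [mul_le_mul_of_nonneg_left h4 (sq_nonneg (kx ha v u)),
    mul_nonneg (sq_nonneg (kx ha v u)) (sq_nonneg (tt v u))]

lemma ky_sq (ha : 0 < a) (v u : Sp q) :
    kx (inv_pos.2 ha) v u ^ 2 * (1 - tt v u ^ 2 + a ^ 2 * tt v u ^ 2) = 1 := by
  have h3 := kx_sq (inv_pos.2 ha) v u
  rw [inv_inv] at h3
  linarith

lemma ky_le_one (ha : 0 < a) (h1 : a ≤ 1) (v u : Sp q) : a * kx (inv_pos.2 ha) v u ≤ 1 := by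
  have h3 := ky_sq ha v u
  have h2 : a ^ 2 ≤ 1 := pow_le_one₀ ha.le h1
  refine le_of_sq_le_sq ?_ zero_le_one
  nlinarith [mul_nonneg (sq_nonneg (kx (inv_pos.2 ha) v u))
    (mul_nonneg (sub_nonneg.2 h2) (sub_nonneg.2 (tt_sq v u)))]

lemma ky_far (ha : 0 < a) (v u : Sp q) {ρ : ℝ} (hρ : 0 < ρ) (h : ρ ^ 2 ≤ 1 - tt v u ^ 2) :
    kx (inv_pos.2 ha) v u ≤ ρ⁻¹ := by
  have h3 := ky_sq ha v u
  rw [inv_eq_one_div ρ, le_div_iff₀ hρ]
  refine le_of_sq_le_sq ?_ zero_le_one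
  nlinarith [mul_le_mul_of_nonneg_left h (sq_nonneg (kx (inv_pos.2 ha) v u)),
    mul_nonneg (sq_nonneg (kx (inv_pos.2 ha) v u)) (mul_nonneg (sq_nonneg a) (sq_nonneg (tt v u)))]

/-- the truncated inverse of the distance to the equator -/
noncomputable def xi (ha : 0 < a) (v : Sp q) : X q :=
  ⟨fun u => a / max a |tt v u|, Continuous.div continuous_const (by unfold tt; fun_prop)
    fun _ => (ha.trans_le (le_max_left _ _)).ne'⟩

lemma kx_le_xi (ha : 0 < a) (h1 : a ≤ 1) (v : Sp q) : kx ha v ≤ xi ha v := fun u => by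
  show kx ha v u ≤ a / max a |tt v u|
  rw [le_div_iff₀ (ha.trans_le (le_max_left _ _))]
  rcases le_total a |tt v u| with h | h
  · rw [max_eq_right h]
    refine le_of_sq_le_sq ?_ ha.le
    rw [mul_pow, sq_abs]
    exact kx_tt ha v u
  · rw [max_eq_left h]
    exact mul_le_of_le_one_left ha.le (kx_le_one ha h1 v u)

lemma xi_step (ha : 0 < a) (hb : 0 < 2 * a) (v : Sp q) :
    xi ha v ≤ (1 / 2 : ℝ) • xi hb v + (2 ^ (q + 3) : ℝ) • kx hb v ^ (q + 3) := fun u => by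
  show a / max a |tt v u| ≤ 1 / 2 * (2 * a / max (2 * a) |tt v u|) + 2 ^ (q + 3) * kx hb v u ^ (q + 3)
  have h0 := kx_pos hb v u
  rcases le_total (2 * a) |tt v u| with h | h
  · rw [max_eq_right h, max_eq_right (by linarith)]
    have : 0 ≤ (2 : ℝ) ^ (q + 3) * kx hb v u ^ (q + 3) := by positivity
    have e : 1 / 2 * (2 * a / |tt v u|) = a / |tt v u| := by ring
    linarith
  · have h1 : a / max a |tt v u| ≤ 1 :=
      (div_le_one (ha.trans_le (le_max_left _ _))).2 (le_max_left _ _)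
    have h2 : (1 : ℝ) ≤ 2 ^ (q + 3) * kx hb v u ^ (q + 3) := by
      rw [← mul_pow]
      exact one_le_pow₀ (by linarith [half_le_kx hb v u h])
    have h3 : 0 ≤ 1 / 2 * (2 * a / max (2 * a) |tt v u|) := by positivity
    linarith

lemma hp (J : ℕ) : (0 : ℝ) < (1 / 2) ^ J := by positivity

lemma mu_up (J : ℕ) : I (kx (hp J) (e0 q)) ≤ 2 ^ (q + 4) * (1 + J) * (1 / 2) ^ J := by
  refine (I_mono (kx_le_xi _ (pow_le_one₀ (by norm_num) (by norm_num)) _)).trans ?_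
  induction J with
  | zero =>
    have : xi (hp 0) (e0 q) ≤ 1 := fun u =>
      (div_le_one ((hp 0).trans_le (le_max_left _ _))).2 (le_max_left _ _)
    refine (I_mono this).trans ?_
    rw [I_one]
    simpa using one_le_pow₀ one_le_two
  | succ J ih =>
    have e : 2 * (1 / 2 : ℝ) ^ (J + 1) = (1 / 2) ^ J := by ring
    have := I_mono (xi_step (hp (J + 1)) (e ▸ hp J) (e0 q))
    rw [map_add, map_smul, map_smul, I_kx] at this
    simp only [e, smul_eq_mul] at this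
    push_cast
    calc _ ≤ _ := this
      _ ≤ 1 / 2 * (2 ^ (q + 4) * (1 + J) * (1 / 2) ^ J) + 2 ^ (q + 3) * (1 / 2) ^ J := by gcongr
      _ = _ := by ring

lemma kx_step (ha : 0 < a) (hb : 0 < 2 * a) (h1 : 2 * a ≤ 1) (v : Sp q) :
    kx hb v + (3 / 8 : ℝ) • (kx hb v ^ (q + 3) - (2 * a) ^ 2 • (1 : X q)) ≤ (2 : ℝ) • kx ha v :=
  fun u => by
  show kx hb v u + 3 / 8 * (kx hb v u ^ (q + 3) - (2 * a) ^ 2 * 1) ≤ 2 * kx ha v u
  have x0 := kx_pos ha v u
  have y0 := kx_pos hb v u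
  have y1 := kx_le_one hb h1 v u
  have hx := kx_sq ha v u
  have hy := kx_sq hb v u
  have ht := kx_tt hb v u
  have s0 := sub_nonneg.2 (tt_sq v u)
  have t0 := sq_nonneg (tt v u)
  have e : (2 * a)⁻¹ ^ 2 = a⁻¹ ^ 2 / 4 := by field_simp; norm_num
  rw [e] at hy
  generalize kx ha v u = x at *
  generalize kx hb v u = y at *
  generalize tt v u ^ 2 = s at *
  have h2 : 4 * x ^ 2 - y ^ 2 = 3 * (1 - s) * (x ^ 2 * y ^ 2) := by
    linear_combination (-4 * x ^ 2) * hy + y ^ 2 * hx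
  have h3 : y ≤ 2 * x := le_of_sq_le_sq (by nlinarith [mul_nonneg s0 (sq_nonneg (x * y))])
    (by positivity)
  have h4 : 3 / 8 * ((1 - s) * y ^ 3) ≤ 2 * x - y := by
    refine le_of_mul_le_mul_right ?_ (show 0 < 4 * x by positivity)
    have h5 : (1 - s) * (x * y ^ 2) * y ≤ (1 - s) * (x * y ^ 2) * (2 * x) := by gcongr
    nlinarith [mul_nonneg (sub_nonneg.2 h3) (sub_nonneg.2 h3)]
  have h6 : y ^ (q + 3) ≤ y ^ 3 := pow_le_pow_of_le_one y0.le y1 (by omega)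
  have h7 : y ^ 3 * s ≤ (2 * a) ^ 2 := by
    refine le_trans ?_ ht
    have : 0 ≤ y ^ 2 * s := by positivity
    nlinarith
  nlinarith

lemma mu_low (J : ℕ) : J / 16 * (1 / 2) ^ (J + 1) ≤ I (kx (hp (J + 1)) (e0 q)) := by
  induction J with
  | zero => simpa using I_nonneg (kx_nonneg _ _)
  | succ J ih =>
    have e : 2 * (1 / 2 : ℝ) ^ (J + 1 + 1) = (1 / 2) ^ (J + 1) := by ring
    have h1 : (1 / 2 : ℝ) ^ (J + 1) ≤ 1 / 2 := pow_le_of_le_one (by norm_num) (by norm_num) (by omega)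
    have := I_mono (kx_step (hp (J + 1 + 1)) (e ▸ hp (J + 1)) (by rw [e]; linarith) (e0 q))
    rw [map_add, map_smul, map_smul, map_sub, I_kx, I_const] at this
    simp only [e, smul_eq_mul] at this
    rw [show ((J + 1 : ℕ) : ℝ) / 16 * (1 / 2) ^ (J + 1 + 1) = (J + 1) / 32 * (1 / 2) ^ (J + 1) by
      push_cast; ring]
    nlinarith [hp (J + 1)]

end Pool.Agent.Lib.MP_242fd5_gt.Dn
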