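import Pool.Agent.Lib.MP_242fd5_gt.Dn.U
import Pool.Agent.Lib.MP_242fd5_gt.Cu.BrT

set_option autoImplicit false

open MeasureTheory Set Metric Filter Topology
open scoped symmDiff

namespace Pool.Agent.Lib.MP_242fd5_gt.Dn

open Ty Cu

variable {q : ℕ}

lemma chain {f : X q} (hf : ∀ u, 0 < f u) {ε : ℝ} (hε : 0 < ε) : ∃ (g : ℕ → X q) (η : ℕ → ℝ),
    g 0 = f ∧ η 0 = ε ∧ ∀ j, 0 < η j ∧ 2 * η (j + 1) ≤ η j ∧
      (∀ i ≤ j, z (N^[i + 2] (g (j + 1)) - N^[i + 1] (g j)) ≤ η j) ∧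
      (∀ i ≤ j, ‖N^[i + 4] (g (j + 1)) - N^[i + 3] (g j)‖ ≤ η j) ∧
      (∀ φ, 0 ≤ φ → z (φ - N (g (j + 1))) ≤ 2 * η (j + 1) → Ph φ ≤ η j) ∧
      ∀ φ, ‖φ - N^[3] (g (j + 1))‖ ≤ 2 * η (j + 1) → ∀ u, 0 < φ u := by
  have H : ∀ (j : ℕ) (s : {s : X q × ℝ // (∀ u, 0 < s.1 u) ∧ 0 < s.2}),
      ∃ t : {s : X q × ℝ // (∀ u, 0 < s.1 u) ∧ 0 < s.2}, 2 * t.1.2 ≤ s.1.2 ∧
        (∀ i ≤ j, z (N^[i + 2] t.1.1 - N^[i + 1] s.1.1) ≤ s.1.2) ∧
        (∀ i ≤ j, ‖N^[i + 4] t.1.1 - N^[i + 3] s.1.1‖ ≤ s.1.2) ∧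
        (∀ φ, 0 ≤ φ → z (φ - N t.1.1) ≤ 2 * t.1.2 → Ph φ ≤ s.1.2) ∧
        ∀ φ, ‖φ - N^[3] t.1.1‖ ≤ 2 * t.1.2 → ∀ u, 0 < φ u := fun j s => by
    obtain ⟨h, b, h0, b0, h1, h2, h3, h4⟩ := back s.2.1 s.2.2 j
    have e : 2 * (min s.1.2 b / 2) = min s.1.2 b := by ring
    exact ⟨⟨(h, min s.1.2 b / 2), h0, half_pos (lt_min s.2.2 b0)⟩, e.trans_le (min_le_left _ _),
      h1, h2, fun φ φ0 a => h3 φ φ0 (a.trans (e.trans_le (min_le_right _ _))),
      fun φ a => h4 φ (a.trans (e.trans_le (min_le_right _ _)))⟩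
  choose T hT using H
  let s : ℕ → {s : X q × ℝ // (∀ u, 0 < s.1 u) ∧ 0 < s.2} :=
    fun j => Nat.rec ⟨(f, ε), hf, hε⟩ T j
  exact ⟨fun j => (s j).1.1, fun j => (s j).1.2, rfl, rfl, fun j => ⟨(s j).2.2, hT j (s j)⟩⟩

theorem orbit {f : X q} (hf : ∀ u, 0 < f u) {ε : ℝ} (hε : 0 < ε) : ∃ F : ℕ → X q,
    (∀ m u, 0 < F m u) ∧ (∀ m, N (F (m + 1)) = F m) ∧ Tendsto (fun m => Ph (F m)) atTop (𝓝 0) ∧
      z (F 2 - N f) ≤ ε ∧ ‖F 0 - N^[3] f‖ ≤ ε := by
  obtain ⟨g, η, g0, η0, h⟩ := chain hf (half_pos hε)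
  have hη : ∀ m t, η (m + t) ≤ 2 * η m / 2 / 2 ^ t := fun m t => by
    induction t with
    | zero => simp
    | succ t ih =>
      rw [pow_succ, ← div_div, le_div_iff₀ two_pos]
      linarith [(h (m + t)).2.1, show η (m + (t + 1)) = η (m + t + 1) from rfl]
  have hd : ∀ m t, dist (N^[t + 3] (g (m + t))) (N^[t + 1 + 3] (g (m + (t + 1)))) ≤
      2 * η m / 2 / 2 ^ t := fun m t => by
    rw [dist_comm, dist_eq_norm]
    exact ((h (m + t)).2.2.2.1 t (by omega)).trans (hη m t)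
  choose F hF using fun m => cauchySeq_tendsto_of_complete
    (cauchySeq_of_le_geometric_two (f := fun t => N^[t + 3] (g (m + t))) (hd m))
  have a1 : ∀ m, ‖F m - N^[3] (g m)‖ ≤ 2 * η m := fun m => by
    rw [← dist_eq_norm, dist_comm]
    exact dist_le_of_le_geometric_two_of_tendsto₀ (f := fun t => N^[t + 3] (g (m + t))) (hd m) (hF m)
  have a2 : ∀ m, N (F (m + 1)) = F m := fun m => by
    refine tendsto_nhds_unique ((contDiff_N.continuous.tendsto _).comp (hF (m + 1)))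
      (((tendsto_add_atTop_iff_nat 1).2 (hF m)).congr fun t => ?_)
    rw [Function.comp_apply, ← Function.iterate_succ_apply' N, show m + 1 + t = m + (t + 1) by ring]
  have a3 : ∀ m u, 0 < F m u := fun m => a2 m ▸ N_pos ((h m).2.2.2.2.2 _ (a1 (m + 1)))
  have a4 : ∀ m, z (F (m + 2) - N (g m)) ≤ 2 * η m := fun m => by
    have b1 : ∀ t, z (N^[t + 1] (g (m + t)) - N (g m)) + 2 * η (m + t) ≤ 2 * η m := fun t => by
      induction t with
      | zero => simp [z_zero]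
      | succ t ih =>
        linarith [z_tri (N^[t + 1 + 1] (g (m + (t + 1)))) (N^[t + 1] (g (m + t))) (N (g m)),
          (h (m + t)).2.1, show η (m + (t + 1)) = η (m + t + 1) from rfl,
          show z (N^[t + 1 + 1] (g (m + (t + 1))) - N^[t + 1] (g (m + t))) ≤ η (m + t) from
            (h (m + t)).2.2.1 t (by omega)]
    refine le_of_tendsto' ((continuous_z.tendsto _).comp ((hF (m + 2)).sub_const _)) fun t => ?_
    have := b1 (t + 2)
    rw [Function.comp_apply, show m + 2 + t = m + (t + 2) by ring]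
    linarith [(h (m + (t + 2))).1]
  refine ⟨F, a3, a2, (tendsto_add_atTop_iff_nat 3).1 (squeeze_zero (g := fun t => 2 * η 0 / 2 / 2 ^ t)
    (fun m => ?_) (fun m => ?_) ?_), ?_, ?_⟩
  · have : 0 ≤ F (m + 3) := fun u => (a3 _ u).le
    exact div_nonneg (I_nonneg (pow_nonneg (N_nonneg this) _))
      (pow_nonneg (I_nonneg (pow_nonneg this _)) _)
  · refine ((h m).2.2.2.2.1 _ (fun u => (a3 _ u).le) (a4 (m + 1))).trans ?_
    simpa using hη 0 m
  · exact tendsto_const_nhds.div_atTop (tendsto_pow_atTop_atTop_of_one_lt one_lt_two)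
  · have := a4 0
    rw [g0, η0] at this
    linarith
  · have := a1 0
    rw [g0, η0] at this
    linarith

lemma inter_bd {s : ℝ} (hs : 0 < s) {φ : X q} (h : 0 ≤ φ) :
    interBody (bd (s • φ)) = bd ((om (q + 2) * s ^ (q + 2)) • N φ) := by
  rw [bd, interBody_star (adm_up (smul_nonneg hs.le h)), T_up, N_smul, bd, mul_smul, up_smul (om _)]

theorem dense {K : Set (V (q + 3))} (hK : IsStarBody K) {ε : ℝ} (hε : 0 < ε) :
    ∃ L : Set (V (q + 3)), HasType L ⊤ ∧ volume (L ∆ interBody K) ≤ ENNReal.ofReal ε ∧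
      ∀ u ∈ sphere (0 : V (q + 3)) 1,
        |radial (interBody^[2] L) u - radial (interBody^[3] K) u| ≤ ε := by
  have o := om_pos (q + 2)
  have o3 := om_pos (q + 3)
  have hf := res_pos hK
  have f0 : 0 ≤ res hK := fun u => (hf u).le
  obtain ⟨s1, e1⟩ : ∃ s, s = om (q + 2) * 1 ^ (q + 2) := ⟨_, rfl⟩
  obtain ⟨s2, e2⟩ : ∃ s, s = om (q + 2) * s1 ^ (q + 2) := ⟨_, rfl⟩
  obtain ⟨s3, e3⟩ : ∃ s, s = om (q + 2) * s2 ^ (q + 2) := ⟨_, rfl⟩
  have p1 : 0 < s1 := by rw [e1]; positivity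
  have p2 : 0 < s2 := by rw [e2]; positivity
  have p3 : 0 < s3 := by rw [e3]; positivity
  have i0 : 0 ≤ I (N (res hK) ^ (q + 3)) := I_nonneg (pow_nonneg (N_nonneg f0) _)
  obtain ⟨τ, τ0, hτ⟩ : ∃ τ : ℝ, 0 < τ ∧ om (q + 3) * s1 ^ (q + 3) * (τ + τ) = ε :=
    ⟨ε / (om (q + 3) * s1 ^ (q + 3)) / 2, by positivity, by field_simp; ring⟩
  obtain ⟨C, C0, hC⟩ := Br.dv_le q (show 0 < τ / (I (N (res hK) ^ (q + 3)) + 1) by positivity)
  obtain ⟨F, F0, FN, FP, h1, h2⟩ := orbit hf (show 0 < min (min 1 (τ / C)) (ε / s3) by positivity)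
  simp only [le_min_iff] at h1 h2
  have F1 : ∀ m, 0 ≤ F m := fun m u => (F0 m u).le
  have k1 : interBody K = bd (s1 • N (res hK)) := by
    rw [e1, ← inter_bd one_pos f0, one_smul, bd_res]
  refine ⟨bd (s1 • F 2), ?_, ?_, fun u hu => ?_⟩
  · obtain ⟨c, c1, c0, hc⟩ := BrT.exists_scale (inv_pos.2 o) p1 (q + 1)
    have hs : ∀ m, SB (up (c m • F (m + 2))) := fun m => sb_up fun u => mul_pos (c0 m) (F0 _ u)
    refine ⟨fun m => Ty.star (up (c m • F (m + 2))), ?_, Or.inr ⟨rfl, ?_⟩⟩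
    · rw [← c1]
      refine orbit_star (f := fun m => up (c m • F (m + 2))) hs fun m => ?_
      rw [T_up, N_smul, hc, show m + 1 + 2 = m + 2 + 1 from rfl, FN, up_smul, up_smul]
      funext x
      field_simp
    · simp only [ratio_star (hs _).adm, Phi_up, Ph_smul (c0 _)]
      simpa using ((tendsto_add_atTop_iff_nat 2).2 FP).const_mul (PhiB (q + 2))
  · have a := adm_up (smul_nonneg p1.le (F1 2))
    have b := adm_up (smul_nonneg p1.le (N_nonneg f0))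
    have v := Br.vol_sd p1 (F1 2) (N_nonneg f0)
    rw [k1]
    rw [bd, bd, vol_symmDiff a b] at v ⊢
    rw [ENNReal.toReal_ofReal (dV_nonneg _ _)] at v
    refine ENNReal.ofReal_le_ofReal ?_
    rw [v, ← hτ]
    refine mul_le_mul_of_nonneg_left ((hC _ _ (F1 2) (N_nonneg f0)).trans (add_le_add ?_ ?_))
      (by positivity)
    · rw [div_mul_eq_mul_div, div_le_iff₀ (by positivity)]
      gcongr
      linarith
    · exact le_of_div C0 ((pow_le_of_le_one (z_nonneg _) h1.1.1 (by omega)).trans h1.1.2)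
  · have a : interBody^[2] (bd (s1 • F 2)) = bd (s3 • F 0) := by
      show interBody (interBody _) = _
      rw [inter_bd p1 (F1 2), ← e2, FN 1, inter_bd p2 (F1 1), ← e3, FN 0]
    have b : interBody^[3] K = bd (s3 • N^[3] (res hK)) := by
      show interBody (interBody (interBody K)) = _
      rw [k1, inter_bd p1 (N_nonneg f0), ← e2, inter_bd p2 (N_nonneg (N_nonneg f0)), ← e3]
      rfl
    have a' := radial_bd (f := s3 • F 0) (fun v => mul_pos p3 (F0 0 v)) ⟨u, hu⟩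
    have b' := radial_bd (f := s3 • N^[3] (res hK)) (fun v => mul_pos p3 (iter_pos 3 hf v)) ⟨u, hu⟩
    rw [a, b, a', b', ContinuousMap.smul_apply, ContinuousMap.smul_apply, smul_eq_mul, smul_eq_mul,
      ← mul_sub, abs_mul, abs_of_pos p3]
    exact le_of_div p3 (((F 0 - N^[3] (res hK)).norm_coe_le_norm ⟨u, hu⟩).trans h2.2)

end Pool.Agent.Lib.MP_242fd5_gt.Dn
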