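import Pool.Agent.Lib.MP_242fd5_gt.Cu.B2

set_option autoImplicit false

open MeasureTheory ProbabilityTheory Set Metric Filter Topology
open scoped RealInnerProductSpace

namespace Pool.Agent.Lib.MP_242fd5_gt.Dn

open Ty Cu

variable {q k : ℕ}

/-- a point of the sphere -/
noncomputable def e0 (q : ℕ) : Sp q := mkS (pt 1 0) (by rw [norm_pt_axis, abs_one])

open Classical in
/-- radial projection to the sphere -/
noncomputable def toS (x : V (q + 3)) : Sp q :=
  if h : x = 0 then e0 q else mkS (nrm x) (norm_nrm h)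

lemma measurable_toS : Measurable (toS : V (q + 3) → Sp q) := by
  classical
  have : Measurable fun x : V (q + 3) => if x = 0 then ((e0 q : Sp q) : V (q + 3)) else nrm x :=
    Measurable.ite (measurableSet_singleton 0) measurable_const measurable_nrm
  refine measurable_comap_iff.2 ?_
  convert this using 1
  funext x
  simp only [Function.comp, toS]
  split_ifs <;> rfl

/-- the normalised measure on the sphere -/
noncomputable def sg (q : ℕ) : Measure (Sp q) :=
  (ENNReal.ofReal (om (q + 3))⁻¹ • mu (q + 3)).map toS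

lemma I_eq (φ : X q) : I φ = ∫ u, φ u ∂sg q := by
  rw [sg, integral_map measurable_toS.aemeasurable φ.continuous.aestronglyMeasurable,
    integral_smul_measure, ENNReal.toReal_ofReal (inv_pos.2 (om_pos _)).le, I_apply, smul_eq_mul]
  congr 1
  refine int_mu_congr fun x hx => ?_
  rw [Cu.ext, toS, dif_neg (ne_zero_of_unit hx), dif_neg (ne_zero_of_unit hx)]

instance : IsProbabilityMeasure (sg q) := ⟨by
  rw [sg, Measure.map_apply measurable_toS MeasurableSet.univ, preimage_univ, Measure.smul_apply,
    mu_univ, smul_eq_mul, ← ENNReal.ofReal_mul (inv_pos.2 (om_pos _)).le,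
    inv_mul_cancel₀ (om_pos _).ne', ENNReal.ofReal_one]⟩

/-- `k` independent points of the sphere -/
noncomputable abbrev pk (q k : ℕ) : Measure (Fin k → Sp q) := Measure.pi fun _ => sg q

lemma cint {α E : Type} [TopologicalSpace α] [CompactSpace α] [SecondCountableTopology α]
    [MeasurableSpace α] [OpensMeasurableSpace α] [T2Space α] [NormedAddCommGroup E]
    {f : α → E} (hf : Continuous f) (m : Measure α) [IsFiniteMeasure m] : Integrable f m :=
  integrableOn_univ.1 (hf.continuousOn.integrableOn_compact isCompact_univ)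

theorem choice (Θ : (Fin k → Sp q) → X q)
    (hΘ : Continuous fun p : (Fin k → Sp q) × Sp q => Θ p.1 p.2) {B : ℝ}
    (h : ∀ u, ∫ v, Θ v u ∂pk q k ≤ B) : ∃ v, I (Θ v) ≤ B := by
  have h1 := cint hΘ ((pk q k).prod (sg q))
  obtain ⟨v, hv⟩ := exists_le_integral h1.integral_prod_left
  refine ⟨v, (I_eq _).trans_le (hv.trans ?_)⟩
  rw [integral_integral_swap (f := fun v u => Θ v u) h1]
  calc _ ≤ ∫ _, B ∂sg q := integral_mono h1.integral_prod_right (integrable_const _) h
    _ = B := by simp

lemma E_prod (φ : X q) : ∫ v, ∏ i, φ (v i) ∂pk q k = I φ ^ k := by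
  rw [integral_fintype_prod_eq_pow, Fintype.card_fin, I_eq]

lemma E_sum (φ : X q) : ∫ v, ∑ i, φ (v i) ∂pk q k = k * I φ := by
  rw [integral_finsetSum _ fun i _ => cint (by fun_prop) _]
  simp only [integral_comp_eval (μ := fun _ : Fin k => sg q) φ.continuous.aestronglyMeasurable]
  simp [I_eq]

lemma E_var (φ : X q) (h : k * I φ = 1) :
    ∫ v, (∑ i, φ (v i) - 1) ^ 2 ∂pk q k ≤ k * I (φ ^ 2) := by
  have h1 : MemLp φ 2 (sg q) := (memLp_two_iff_integrable_sq
    φ.continuous.aestronglyMeasurable).2 (cint (by fun_prop) _)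
  have h2 := variance_sum_pi (μ := fun _ : Fin k => sg q) (X := fun _ => φ) fun _ => h1
  have h3 : (∑ i : Fin k, fun ω : Fin k → Sp q => φ (ω i)) = fun v => ∑ i, φ (v i) := by
    funext v; simp
  rw [h3, variance_eq_integral (Continuous.aemeasurable (by fun_prop)), E_sum, h] at h2
  rw [h2, Finset.sum_const, Finset.card_univ, Fintype.card_fin, nsmul_eq_mul, I_eq]
  exact mul_le_mul_of_nonneg_left
    (variance_le_expectation_sq φ.continuous.aestronglyMeasurable) (Nat.cast_nonneg k)

end Pool.Agent.Lib.MP_242fd5_gt.Dn
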