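import Pool.Agent.Lib.MP_242fd5_gt.Dn.W

set_option autoImplicit false

open MeasureTheory Set Metric Filter Topology

namespace Pool.Agent.Lib.MP_242fd5_gt.Dn

open Ty Cu

variable {q p : ℕ}

lemma young {x k σ : ℝ} (x0 : 0 ≤ x) (k0 : 0 ≤ k) (σ0 : 0 < σ) :
    x * k ≤ σ * k ^ (7 / 4 : ℝ) + (x + σ⁻¹ ^ 2 * x ^ 3) := by
  rcases le_total k (1 + (σ⁻¹ * x) ^ 2) with h | h
  · have : 0 ≤ σ * k ^ (7 / 4 : ℝ) := by positivity
    nlinarith [mul_le_mul_of_nonneg_left h x0]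
  · have k1 : 1 ≤ k := le_trans (by nlinarith [sq_nonneg (σ⁻¹ * x)]) h
    have h1 : k ≤ (k ^ (3 / 4 : ℝ)) ^ 2 := by
      rw [← Real.rpow_natCast, ← Real.rpow_mul k0]
      exact Real.self_le_rpow_of_one_le k1 (by norm_num)
    have h2 : σ⁻¹ * x ≤ k ^ (3 / 4 : ℝ) := le_of_sq_le_sq (by linarith) (by positivity)
    rw [inv_mul_le_iff₀ σ0] at h2
    have h3 : k ^ (7 / 4 : ℝ) = k ^ (3 / 4 : ℝ) * k := by
      rw [show (7 / 4 : ℝ) = 3 / 4 + 1 by norm_num, Real.rpow_add (by linarith), Real.rpow_one]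
    have : 0 ≤ x + σ⁻¹ ^ 2 * x ^ 3 := by positivity
    rw [h3]
    nlinarith [mul_le_mul_of_nonneg_right h2 k0]

lemma I_low (q : ℕ) {a b : ℕ} (ha : 1 ≤ a) (h : a ≤ b) {ε : ℝ} (hε : 0 < ε) :
    ∃ τ : ℝ, 0 < τ ∧ ∀ φ : X q, E b φ ≤ τ → E a φ ≤ ε := by
  obtain ⟨C, C0, hC⟩ := low ha h (half_pos hε)
  refine ⟨ε / 2 / C, by positivity, fun φ e => ?_⟩
  have := I_mono (φ := |φ| ^ a) (ψ := (ε / 2) • 1 + C • |φ| ^ b) fun u =>
    (hC |φ u| (abs_nonneg _)).trans_eq (congrArg (· + _) (mul_one _).symm)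
  rw [map_add, I_const, I_smul] at this
  have h2 := le_of_div C0 e
  unfold E at *
  linarith

lemma AA (q : ℕ) {ε : ℝ} (hε : 0 < ε) :
    ∃ τ : ℝ, 0 < τ ∧ ∀ ψ : X q, 0 ≤ ψ → I (ψ ^ 3) ≤ τ → ∀ u, A (A ψ) u ≤ ε := by
  obtain ⟨C, C0, hC⟩ := int_kr_rpow q
  have o2 := om_pos (q + 2)
  have o3 := om_pos (q + 3)
  have c0 := cK_pos q
  obtain ⟨σ, σ0, hσ⟩ : ∃ σ : ℝ, 0 < σ ∧
      cK q * (σ * C + om (q + 3) * (σ + σ)) = om (q + 2) * (om (q + 2) * ε) :=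
    ⟨om (q + 2) * (om (q + 2) * ε) / (cK q * (C + om (q + 3) * 2)), by positivity, by
      field_simp; ring⟩
  obtain ⟨τ, τ0, hτ⟩ := I_low q (le_refl 1) (show 1 ≤ 3 by omega) σ0
  refine ⟨min τ (σ / σ⁻¹ ^ 2), by positivity, fun ψ h0 h u => ?_⟩
  have h1 : I ψ ≤ σ := by
    simpa [E_of_nonneg h0] using hτ ψ ((E_of_nonneg h0).trans_le (h.trans (min_le_left _ _)))
  have h2 := le_of_div (by positivity) (h.trans (min_le_right _ _))
  have h3 := RR_nonneg (bm_ext ψ) (ext_nonneg h0) (un u)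
  rw [R_up (om (q + 2) • A ψ) (fun v => R_up ψ (ext_coe ψ) v), map_smul, ContinuousMap.smul_apply,
    smul_eq_mul] at h3
  refine le_of_mul_le_mul_left (le_of_mul_le_mul_left ?_ o2) o2
  rw [h3, ← hσ]
  refine mul_le_mul_of_nonneg_left ?_ c0.le
  have i1 := ((hC u (un u)).1.const_mul σ)
  have i2 := (bm_ext (ψ + σ⁻¹ ^ 2 • ψ ^ 3)).int_mu
  refine (integral_mono_ae ((bm_ext ψ).int_kr (un u)) (i1.add i2)
    (mu_sphere.mono fun x hx => ?_)).trans ?_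
  · simp only [Pi.add_apply, ext_unit _ hx]
    exact young (h0 _) (kr_nonneg _ _) σ0
  · simp only [Pi.add_apply]
    rw [integral_add i1 i2, integral_const_mul, int_up _ (ext_coe _), map_add, I_smul]
    gcongr
    exact (hC u (un u)).2

lemma N_step {F : X q} (h : 0 ≤ F) {η : ℝ} (hη : 0 < η) : ∃ C : ℝ, 0 < C ∧ ∀ F' : X q, 0 ≤ F' →
    |N F' - N F| ≤ η • 1 + C • A (|F' - F| ^ (q + 2)) := by
  obtain ⟨C, C0, hC⟩ := abs_pow_sub_eta (q + 2) (show 0 < η / (‖F‖ ^ (q + 2) + 1) by positivity)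
  refine ⟨C, C0, fun F' h' => ?_⟩
  rw [N, N, ← map_sub, ← A_one (q := q), ← map_smul, ← map_smul, ← map_add]
  refine (abs_A_le _).trans (A_mono fun u => (hC (F' u) (F u) (h' u) (h u)).trans ?_)
  show _ ≤ η * 1 + C * |F' u - F u| ^ (q + 2)
  refine add_le_add ?_ le_rfl
  rw [div_mul_eq_mul_div, div_le_iff₀ (by positivity), mul_one]
  gcongr
  exact (pow_le_pow_left₀ (h u) ((le_abs_self _).trans (F.norm_coe_le_norm u)) _).trans (by linarith)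

theorem two_step {F : X q} (h : 0 ≤ F) {ε : ℝ} (hε : 0 < ε) : ∃ τ : ℝ, 0 < τ ∧ ∀ F' : X q, 0 ≤ F' →
    E ((q + 2) * (q + 2) * 3) (F' - F) ≤ τ → ‖N (N F') - N (N F)‖ ≤ ε := by
  obtain ⟨C, C0, hC⟩ := N_step (N_nonneg h) (show 0 < ε / 3 by positivity)
  obtain ⟨η, η0, η1, hη⟩ : ∃ η : ℝ, 0 < η ∧ η ≤ 1 ∧ C * 2 ^ (q + 2) * η ≤ ε / 3 :=
    ⟨min 1 (ε / 3 / _), by positivity, min_le_left _ _,
      le_of_div (by positivity) (min_le_right _ _)⟩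
  obtain ⟨D, D0, hD⟩ := N_step h η0
  obtain ⟨τ, τ0, hτ⟩ := AA q (show 0 < ε / 3 / (C * 2 ^ (q + 2) * D ^ (q + 2)) by positivity)
  refine ⟨τ, τ0, fun F' h' e => (ContinuousMap.norm_le _ hε.le).2 fun u => ?_⟩
  have d0 : 0 ≤ |F' - F| ^ (q + 2) := pow_nonneg (abs_nonneg _) _
  have h1 : |N F' - N F| ^ (q + 2) ≤ (2 ^ (q + 2) * η : ℝ) • 1 +
      (2 ^ (q + 2) * D ^ (q + 2) : ℝ) • A ((|F' - F| ^ (q + 2)) ^ (q + 2)) := fun v => by
    have a0 : 0 ≤ A (|F' - F| ^ (q + 2)) v := A_nonneg d0 v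
    have a1 : |(N F' - N F) v| ≤ η * 1 + D * A (|F' - F| ^ (q + 2)) v := hD F' h' v
    have a2 : A (|F' - F| ^ (q + 2)) v ^ (q + 2) ≤ A ((|F' - F| ^ (q + 2)) ^ (q + 2)) v :=
      A_pow_le d0 (q + 1) v
    show |(N F' - N F) v| ^ (q + 2) ≤ 2 ^ (q + 2) * η * 1 +
      2 ^ (q + 2) * D ^ (q + 2) * A ((|F' - F| ^ (q + 2)) ^ (q + 2)) v
    rw [mul_one] at a1
    refine (pow_le_pow_left₀ (abs_nonneg _) a1 _).trans
      ((add_pow_two _ η0.le (by positivity)).trans ?_)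
    rw [mul_one, mul_add, mul_pow, mul_assoc]
    gcongr
    exact pow_le_of_le_one η0.le η1 (by omega)
  have h2 := ContinuousMap.le_def.1 (A_mono h1) u
  have h3 := ContinuousMap.le_def.1 (hC _ (N_nonneg h')) u
  have h4 := le_of_div (by positivity) (hτ _ (pow_nonneg d0 (q + 2))
    (by rw [← pow_mul, ← pow_mul, ← mul_assoc]; exact e) u)
  rw [map_add, map_smul, map_smul, A_one] at h2
  simp only [ContinuousMap.add_apply, ContinuousMap.smul_apply, ContinuousMap.one_apply,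
    smul_eq_mul, mul_one, ContinuousMap.abs_apply] at h2 h3
  rw [Real.norm_eq_abs]
  linarith [mul_le_mul_of_nonneg_left h2 C0.le]

lemma iter_gen (d : X q → ℝ) (hd : ∀ F, 0 ≤ F → ∀ ε : ℝ, 0 < ε → ∃ τ : ℝ, 0 < τ ∧ ∀ F', 0 ≤ F' →
    d (F' - F) ≤ τ → d (N F' - N F) ≤ ε) (M : ℕ) : ∀ F, 0 ≤ F → ∀ ε : ℝ, 0 < ε → ∃ τ : ℝ, 0 < τ ∧
      ∀ F', 0 ≤ F' → d (F' - F) ≤ τ → ∀ i ≤ M, d (N^[i] F' - N^[i] F) ≤ ε := by
  induction M with
  | zero =>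
    refine fun F _ ε hε => ⟨ε, hε, fun F' _ e i hi => ?_⟩
    obtain rfl : i = 0 := by omega
    exact e
  | succ M ih =>
    intro F h ε hε
    obtain ⟨τ, τ0, hτ⟩ := ih _ (N_nonneg h) ε hε
    obtain ⟨σ, σ0, hσ⟩ := hd F h τ τ0
    refine ⟨min ε σ, by positivity, fun F' h' e i hi => ?_⟩
    cases i with
    | zero => exact e.trans (min_le_left _ _)
    | succ i => exact hτ _ (N_nonneg h') (hσ _ h' (e.trans (min_le_right _ _))) i (by omega)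

lemma z_step (F : X q) (h : 0 ≤ F) (ε : ℝ) (hε : 0 < ε) : ∃ τ : ℝ, 0 < τ ∧ ∀ F', 0 ≤ F' →
    z (F' - F) ≤ τ → z (N F' - N F) ≤ ε := by
  have z0 := z_nonneg F
  refine ⟨min 1 (ε / ((q + 2) * 2 ^ (q + 2) * (z F + 1 + z F) ^ (q + 1))), by positivity,
    fun F' h' e => (N_lip h' h).trans (le_trans ?_
      (le_of_div (by positivity) (e.trans (min_le_right _ _))))⟩
  have h1 := z_add_le F (F' - F)
  rw [add_sub_cancel] at h1
  have := z_nonneg F'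
  have := z_nonneg (F' - F)
  gcongr
  linarith [e.trans (min_le_left _ _)]

lemma sup_step (F : X q) (_ : 0 ≤ F) (ε : ℝ) (hε : 0 < ε) : ∃ τ : ℝ, 0 < τ ∧ ∀ F', 0 ≤ F' →
    ‖F' - F‖ ≤ τ → ‖N F' - N F‖ ≤ ε := by
  obtain ⟨τ, τ0, hτ⟩ := Metric.continuousAt_iff.1 (contDiff_N.continuous.continuousAt (x := F)) ε hε
  refine ⟨τ / 2, half_pos τ0, fun F' _ e => ?_⟩
  rw [← dist_eq_norm] at e ⊢
  exact (hτ (by linarith)).le

lemma exists_lb {f : X q} (h : ∀ u, 0 < f u) : ∃ c : ℝ, 0 < c ∧ ∀ u, c ≤ f u := by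
  obtain ⟨u, -, hu⟩ := isCompact_univ.exists_isMinOn ⟨e0 q, mem_univ _⟩ f.continuous.continuousOn
  exact ⟨f u, h u, fun v => hu (mem_univ v)⟩

lemma N_pos {f : X q} (h : ∀ u, 0 < f u) (u : Sp q) : 0 < N f u := by
  obtain ⟨c, c0, hc⟩ := exists_lb h
  have := N_mono (φ := c • 1) (ψ := f) (smul_nonneg c0.le zero_le_one) fun v =>
    (mul_one c).trans_le (hc v)
  rw [N_smul, N, one_pow, A_one] at this
  exact lt_of_lt_of_le (by simpa using pow_pos c0 (q + 2)) (ContinuousMap.le_def.1 this u)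

lemma iter_pos (m : ℕ) {f : X q} (h : ∀ u, 0 < f u) : ∀ u, 0 < N^[m] f u := by
  induction m with
  | zero => exact h
  | succ m ih => rw [Function.iterate_succ_apply']; exact N_pos ih

lemma Ph_le {φ : X q} (h : 0 ≤ φ) {a K η : ℝ} (K1 : 1 ≤ K) (hη : 0 ≤ η) (e : a ^ (q + 3) ≤ η * K)
    (h1 : K ≤ z φ) (h2 : z (N φ) ≤ a) : Ph φ ≤ η := by
  have h3 : K ≤ (z φ ^ (q + 3)) ^ (q + 2) := by
    rw [← pow_mul]
    exact h1.trans (le_self_pow₀ (K1.trans h1) (by positivity))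
  rw [Ph, ← z_pow' h, ← z_pow' (N_nonneg h), div_le_iff₀ (by linarith)]
  exact (pow_le_pow_left₀ (z_nonneg _) h2 _).trans (e.trans (by gcongr))

/-- approximate preimages -/
theorem back {f : X q} (hf : ∀ u, 0 < f u) {η : ℝ} (hη : 0 < η) (M : ℕ) :
    ∃ (h : X q) (b : ℝ), (∀ u, 0 < h u) ∧ 0 < b ∧
      (∀ i ≤ M, z (N^[i + 2] h - N^[i + 1] f) ≤ η) ∧ (∀ i ≤ M, ‖N^[i + 4] h - N^[i + 3] f‖ ≤ η) ∧
      (∀ φ, 0 ≤ φ → z (φ - N h) ≤ b → Ph φ ≤ η) ∧ ∀ φ, ‖φ - N^[3] h‖ ≤ b → ∀ u, 0 < φ u := by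
  have f0 : 0 ≤ f := fun u => (hf u).le
  have F0 := N_nonneg f0
  obtain ⟨p, hp⟩ : ∃ p, (q + 2) * (q + 2) * 3 = p + 1 := ⟨_, (Nat.succ_pred (by positivity)).symm⟩
  have hq : q + 3 ≤ p + 1 := by rw [← hp]; nlinarith
  obtain ⟨g, g0, hg⟩ : ∃ g : ℝ, 0 < g ∧ g ≤ I (N f) := by
    obtain ⟨c, c0, hc⟩ := exists_lb (N_pos hf)
    exact ⟨c, c0, (I_const c).ge.trans (I_mono fun v => (mul_one c).trans_le (hc v))⟩
  obtain ⟨τ1, τ10, h1⟩ := iter_gen z z_step M _ F0 η hη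
  obtain ⟨τ2, τ20, h2⟩ := iter_gen norm sup_step M _ (N_nonneg (N_nonneg F0)) η hη
  obtain ⟨τ3, τ30, h3⟩ := two_step F0 τ20
  obtain ⟨τ4, τ40, h4⟩ := I_low q (show 1 ≤ q + 3 by omega) hq
    (show 0 < min 1 τ1 ^ (q + 3) by positivity)
  obtain ⟨τ5, τ50, h5⟩ := I_low q (le_refl 1) (show 1 ≤ p + 1 by omega) (half_pos g0)
  obtain ⟨K, K1, hK⟩ : ∃ K : ℝ, 1 ≤ K ∧ (z (N f) + 2) ^ (q + 3) ≤ η * K :=
    ⟨max 1 (_ / η), le_max_left _ _, (div_le_iff₀' hη).1 (le_max_right _ _)⟩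
  obtain ⟨L, L0, hL⟩ : ∃ L : ℝ, 0 < L ∧ L * (g / 4) = (K + 1) ^ (q + 3) :=
    ⟨(K + 1) ^ (q + 3) / (g / 4), by positivity, by field_simp⟩
  obtain ⟨ψ, ψ0, e1, e2⟩ := att_A (p := p) (by omega) (φ := f ^ (q + 2)) (fun u => pow_pos (hf u) _)
    (min (g / 4 / L ^ (q + 1)) (min τ3 (min τ4 τ5))) (by positivity)
  simp only [le_min_iff] at e1 e2
  obtain ⟨h, h0, eh⟩ := exists_root (φ := ψ) (fun u => (ψ0 u).le) (q + 1)
  have hpos : ∀ u, 0 < h u := fun u => lt_of_le_of_ne (h0 u) fun e => by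
    have := ψ0 u
    rw [← eh, ContinuousMap.pow_apply, ← e] at this
    simp at this
  have eN : A ψ = N h := by rw [← eh]; rfl
  rw [eN, ← N] at e2
  have H0 := N_nonneg h0
  have a1 : z (N (N h) - N f) ≤ min 1 τ1 := z_le_of_pow (by positivity) (h4 _ e2.2.2.1)
  have a2 : K + 1 ≤ z (N h) := by
    refine le_of_pow_le_pow_left₀ (show q + 3 ≠ 0 by omega) (z_nonneg _) ?_
    have b1 := E_cut (N h) L0 (q + 1)
    have b2 := h5 _ e2.2.2.2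
    have b3 := I_mono (neg_le_abs (N (N h) - N f))
    rw [E, pow_one] at b2
    rw [map_neg, map_sub, N, I_A] at b3
    rw [abs_of_nonneg H0, E_of_nonneg H0, E_of_nonneg H0, ← z_pow' H0, ← eN, I_A, eN] at b1
    have b4 := le_of_div (pow_pos L0 _) e1.1
    rw [← hL, ← le_inv_mul_iff₀ L0]
    rw [N] at b2
    linarith
  obtain ⟨b1, b10, hb1⟩ := z_step _ H0 1 one_pos
  obtain ⟨b2, b20, hb2⟩ := exists_lb (iter_pos 3 hpos)
  refine ⟨h, min (min 1 b1) (b2 / 2), hpos, by positivity,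
    h1 _ (N_nonneg H0) (a1.trans (min_le_right _ _)),
    h2 _ (N_nonneg (N_nonneg (N_nonneg H0))) (h3 _ (N_nonneg H0) (hp ▸ e2.2.1)),
    fun φ φ0 e => ?_, fun φ e u => ?_⟩
  · simp only [le_min_iff] at e
    have c1 := z_tri (N φ) (N (N h)) (N f)
    have c2 := z_add_le (N f) (N φ - N f)
    have c3 := z_add_le φ (N h - φ)
    rw [add_sub_cancel] at c2 c3
    rw [z_sub_comm] at c3
    exact Ph_le φ0 K1 hη.le hK (by linarith [e.1.1])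
      (by linarith [hb1 φ φ0 e.1.2, a1.trans (min_le_left _ _)])
  · have := (abs_le.1 (((φ - N^[3] h).norm_coe_le_norm u).trans (e.trans (min_le_right _ _)))).1
    rw [ContinuousMap.sub_apply] at this
    linarith [hb2 u]

end Pool.Agent.Lib.MP_242fd5_gt.Dn
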