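import Pool.Agent.Lib.MP_242fd5_gt.Dn.B

set_option autoImplicit false

open MeasureTheory Set Metric Filter Topology
open scoped RealInnerProductSpace

namespace Pool.Agent.Lib.MP_242fd5_gt.Dn

open Ty Cu

variable {q p : ℕ}

/-- the antipodal map -/
noncomputable def ng (q : ℕ) : C(Sp q, Sp q) :=
  pr (LinearIsometryEquiv.neg ℝ (E := V (q + 3))).toContinuousLinearEquiv

lemma ng_coe (u : Sp q) : (ng q u : V (q + 3)) = -u := pr_iso _ u

lemma ng_ng (u : Sp q) : ng q (ng q u) = u := Subtype.ext (by rw [ng_coe, ng_coe, neg_neg])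

lemma A_ng (φ : X q) : A (φ.comp (ng q)) = A φ := by
  rw [ng, A_iso]
  ext u
  show A φ (ng q u) = _
  rw [A_apply, A_apply, ng_coe, R_neg]

lemma kx_congr {a b : ℝ} (ha : 0 < a) (hb : 0 < b) (e : a = b) (v : Sp q) : kx ha v = kx hb v := by
  subst e; rfl

lemma near {u v : Sp q} {ρ : ℝ} (hρ : 0 < ρ) (h : 1 - tt u v ^ 2 < ρ ^ 2) :
    dist v u < 2 * ρ ∨ dist v (ng q u) < 2 * ρ := by
  have h1 := tt_sq u v
  rcases le_total 0 (tt u v) with e | e
  · left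
    refine lt_of_pow_lt_pow_left₀ 2 (by positivity) ?_
    rw [Subtype.dist_eq, dist_eq_norm, norm_sub_sq_real, un, un, real_inner_comm, ← tt]
    nlinarith [abs_le_one_iff_mul_self_le_one.2 (by nlinarith : tt u v * tt u v ≤ 1),
      le_abs_self (tt u v)]
  · right
    refine lt_of_pow_lt_pow_left₀ 2 (by positivity) ?_
    rw [Subtype.dist_eq, dist_eq_norm, ng_coe, sub_neg_eq_add, norm_add_sq_real, un, un,
      real_inner_comm, ← tt]
    nlinarith [abs_le_one_iff_mul_self_le_one.2 (by nlinarith : tt u v * tt u v ≤ 1),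
      neg_le_abs (tt u v)]

lemma big (q : ℕ) (B : ℝ) : ∃ (η : ℝ) (hη : 0 < η), B ≤ I (kx (inv_pos.2 hη) (e0 q) ^ (q + 2)) := by
  obtain ⟨J, hJ⟩ := exists_nat_ge (16 * B)
  refine ⟨_, hp (J + 1), ?_⟩
  rw [← I_A, ← N, N_kx, kx_congr _ (hp (J + 1)) (inv_inv _), I_smul, le_inv_mul_iff₀ (hp _)]
  refine le_trans ?_ (mu_low J)
  rw [mul_comm]
  gcongr
  linarith

lemma att_even (hp : q + 1 ≤ p) {φ : X q} (h0 : ∀ u, 0 < φ u) (he : ∀ u, φ (ng q u) = φ u) :
    Att (p + 1) (A φ) := by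
  have hc : IsClosed (A ⁻¹' {F : X q | Att (p + 1) F}) := att_closed.preimage A.continuous
  have hv : Convex ℝ (A ⁻¹' {F : X q | Att (p + 1) F}) :=
    att_convex.linear_preimage (A (q := q)).toLinearMap
  refine hc.closure_subset (Metric.mem_closure_iff.2 fun ε hε => ?_)
  obtain ⟨ρ, ρ0, hρ⟩ := Metric.uniformContinuous_iff.1
    (CompactSpace.uniformContinuous_of_continuous φ.continuous) (ε / 3) (by positivity)
  obtain ⟨η, η0, hη⟩ := big q (max 1 (2 * ‖φ‖ * (ρ / 2)⁻¹ ^ (q + 2) / (ε / 3)))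
  obtain ⟨c, hc'⟩ : ∃ c, c = I (kx (inv_pos.2 η0) (e0 q) ^ (q + 2)) := ⟨_, rfl⟩
  rw [← hc'] at hη
  have c0 : 0 < c := one_pos.trans_le ((le_max_left _ _).trans hη)
  have c1 : 2 * ‖φ‖ * (ρ / 2)⁻¹ ^ (q + 2) ≤ ε / 3 * c := by
    rw [← div_le_iff₀' (by positivity)]; exact (le_max_right _ _).trans hη
  have hi : Integrable (fun v => (c⁻¹ * φ v) • kx (inv_pos.2 η0) v ^ (q + 2)) (sg q) :=
    cint (by fun_prop) _
  refine ⟨_, hv.integral_mem hc (Eventually.of_forall fun v => ?_) hi, ?_⟩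
  · show Att (p + 1) (A _)
    rw [map_smul, ← N, kx, N_rh]
    exact (att_rh (att_one hp) _).smul (mul_pos (inv_pos.2 c0) (h0 v))
  refine lt_of_le_of_lt ((ContinuousMap.dist_le (by positivity : 0 ≤ ε / 3 + ε / 3)).2 fun u => ?_)
    (by linarith)
  have e1 : (∫ v, (c⁻¹ * φ v) • kx (inv_pos.2 η0) v ^ (q + 2) ∂sg q) u =
      c⁻¹ * I (φ * kx (inv_pos.2 η0) u ^ (q + 2)) := by
    rw [I_eq, ← integral_const_mul]
    refine ((ContinuousMap.evalCLM ℝ u).integral_comp_comm hi).symm.trans ?_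
    congr 1
    funext v
    simp [kx_symm _ v u, mul_assoc]
  have e2 : I (kx (inv_pos.2 η0) u ^ (q + 2)) = c := by rw [I_kx_pow, hc']
  have e3 : φ u = c⁻¹ * I (φ u • kx (inv_pos.2 η0) u ^ (q + 2)) := by
    rw [I_smul, e2]; field_simp
  rw [e1, Real.dist_eq]
  nth_rw 1 [e3]
  rw [← mul_sub, ← map_sub, abs_mul, abs_of_pos (inv_pos.2 c0), inv_mul_le_iff₀ c0]
  have e4 : |φ u • kx (inv_pos.2 η0) u ^ (q + 2) - φ * kx (inv_pos.2 η0) u ^ (q + 2)| ≤
      (ε / 3) • kx (inv_pos.2 η0) u ^ (q + 2) + (ε / 3 * c) • 1 := fun v => by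
    show |φ u * kx (inv_pos.2 η0) u v ^ (q + 2) - φ v * kx (inv_pos.2 η0) u v ^ (q + 2)| ≤
      ε / 3 * kx (inv_pos.2 η0) u v ^ (q + 2) + ε / 3 * c * 1
    have k0 := pow_pos (kx_pos (inv_pos.2 η0) u v) (q + 2)
    rw [← sub_mul, abs_mul, abs_of_pos k0, mul_one]
    rcases le_or_gt ((ρ / 2) ^ 2) (1 - tt u v ^ 2) with h | h
    · have h1 : |φ u - φ v| ≤ 2 * ‖φ‖ := (abs_sub _ _).trans (by
        linarith [show |φ u| ≤ ‖φ‖ from φ.norm_coe_le_norm u,
          show |φ v| ≤ ‖φ‖ from φ.norm_coe_le_norm v])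
      have h2 := pow_le_pow_left₀ (kx_pos _ u v).le (ky_far η0 u v (half_pos ρ0) h) (q + 2)
      have h3 := mul_le_mul h1 h2 k0.le (by positivity)
      have : 0 ≤ ε / 3 * kx (inv_pos.2 η0) u v ^ (q + 2) := by positivity
      linarith
    · have h1 : |φ u - φ v| ≤ ε / 3 := by
        rw [abs_sub_comm, ← Real.dist_eq]
        rcases near (half_pos ρ0) h with h2 | h2
        · exact (hρ (by linarith)).le
        · rw [← he u]; exact (hρ (by linarith)).le
      have : 0 ≤ ε / 3 * c := by positivity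
      linarith [mul_le_mul_of_nonneg_right h1 k0.le]
  have e5 := I_mono e4
  rw [map_add, I_smul, I_const, e2] at e5
  refine abs_le.2 ⟨?_, ?_⟩
  · have := I_mono (neg_le_abs (φ u • kx (inv_pos.2 η0) u ^ (q + 2) -
      φ * kx (inv_pos.2 η0) u ^ (q + 2)))
    rw [map_neg] at this
    linarith
  · linarith [I_mono (le_abs_self (φ u • kx (inv_pos.2 η0) u ^ (q + 2) -
      φ * kx (inv_pos.2 η0) u ^ (q + 2)))]

theorem att_A (hp : q + 1 ≤ p) {φ : X q} (h0 : ∀ u, 0 < φ u) : Att (p + 1) (A φ) := by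
  have := att_even hp (φ := (1 / 2 : ℝ) • (φ + φ.comp (ng q)))
    (fun u => mul_pos one_half_pos (add_pos (h0 u) (h0 _))) fun u => by simp [ng_ng, add_comm]
  rwa [map_smul, map_add, A_ng, ← two_smul ℝ, smul_smul, one_div_mul_cancel two_ne_zero,
    one_smul] at this

end Pool.Agent.Lib.MP_242fd5_gt.Dn
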